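import Mathlib

/-!
# A combinatorial bound for chains with few patterns

`D : ℕ → ℕ → ℕ` is thought of as a distance function on the points of a chain, monotone for the
inclusion of intervals. `Free D s V X` says that the finite set of points `X` contains no pattern
of height bigger than `s`. The main result bounds the number of points of `X` with pairwise
distances in `[h, T]` by `C * (T / h) ^ p` for every `p > 1`.
-/

set_option autoImplicit false

namespace Pool.Agent.Lib_helper84.Garside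

open Finset

/-- No pattern of height bigger than `s` (with offset `V`) in the set of points `X`. -/
def Free (D : ℕ → ℕ → ℕ) (s V : ℕ) (X : Finset ℕ) : Prop :=
  ∀ (S : ℕ) (P v : ℕ → ℕ), (∀ a ≤ S, P a ∈ X) → (∀ a < S, P a < P (a + 1)) →
    (∀ a b, a < b → b ≤ S → D (P a) (P b) ≤ D (P a) (P (a + 1)) + v a) →
    (∀ a < S, V + 1 + ∑ c ∈ Finset.range a, v c ≤ D (P a) (P (a + 1))) → S ≤ s

theorem Free.subset {D : ℕ → ℕ → ℕ} {s V : ℕ} {X Y : Finset ℕ} (h : Free D s V X) (hYX : Y ⊆ X) :
    Free D s V Y := by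
  intro S P v h1 h2 h3 h4
  exact h S P v (fun a ha => hYX (h1 a ha)) h2 h3 h4

theorem Free.step {D : ℕ → ℕ → ℕ} {s V v : ℕ} {X Y : Finset ℕ} (h : Free D (s + 1) V X)
    (hYX : Y ⊆ X) {ρ : ℕ} (hρ : ρ ∈ X) (hρY : ∀ y ∈ Y, ρ < y)
    (hv : ∀ x ∈ Y, ∀ y ∈ Y, D ρ x ≤ D ρ y + v) (hV : ∀ y ∈ Y, V + 1 ≤ D ρ y) :
    Free D s (V + v) Y := by
  intro S P w h1 h2 h3 h4
  have key := h (S + 1) (fun a => Nat.casesOn a ρ P) (fun a => Nat.casesOn a v w) ?_ ?_ ?_ ?_
  · omega
  · intro a ha
    cases a with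
    | zero => exact hρ
    | succ a => exact hYX (h1 a (by omega))
  · intro a ha
    cases a with
    | zero => exact hρY _ (h1 0 (by omega))
    | succ a => exact h2 a (by omega)
  · intro a b hab hb
    cases b with
    | zero => omega
    | succ b =>
      cases a with
      | zero => exact hv _ (h1 b (by omega)) _ (h1 0 (by omega))
      | succ a => exact h3 a b (by omega) (by omega)
  · intro a ha
    cases a with
    | zero => simpa using hV _ (h1 0 (by omega))
    | succ a =>
      have h5 := h4 a (by omega)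
      have h6 : ∑ c ∈ Finset.range (a + 1), (Nat.casesOn c v w : ℕ)
          = ∑ c ∈ Finset.range a, w c + v :=
        Finset.sum_range_succ' (fun c => (Nat.casesOn c v w : ℕ)) a
      have h7 : V + 1 + ∑ c ∈ Finset.range (a + 1), (Nat.casesOn c v w : ℕ)
          ≤ D (P a) (P (a + 1)) := by
        rw [h6]
        omega
      exact h7

theorem Free.card_le_one {D : ℕ → ℕ → ℕ} {V h : ℕ} {X : Finset ℕ} (hF : Free D 0 V X)
    (hV : V + 1 ≤ h) (hX : ∀ x ∈ X, ∀ y ∈ X, x < y → h ≤ D x y) : X.card ≤ 1 := by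
  rw [Finset.card_le_one]
  have key : ∀ x ∈ X, ∀ y ∈ X, ¬ x < y := by
    intro x hx y hy hxy
    have := hF 1 (fun a => if a = 0 then x else y) (fun _ => 0) ?_ ?_ ?_ ?_
    · omega
    · intro a _
      by_cases h0 : a = 0
      · simp [h0, hx]
      · simp [h0, hy]
    · intro a ha
      have : a = 0 := by omega
      subst this
      simpa using hxy
    · intro a b hab hb
      have ha : a = 0 := by omega
      have hb : b = 1 := by omega
      subst ha
      subst hb
      simp
    · intro a ha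
      have : a = 0 := by omega
      subst this
      have := hX x hx y hy hxy
      simp
      omega
  intro x hx y hy
  rcases lt_trichotomy x y with h1 | h1 | h1
  · exact absurd h1 (key x hx y hy)
  · exact h1
  · exact absurd h1 (key y hy x hx)

/-- The function `D` is monotone for the inclusion of intervals. -/
def IMono (D : ℕ → ℕ → ℕ) : Prop :=
  ∀ i i' j' j : ℕ, i ≤ i' → i' < j' → j' ≤ j → D i' j' ≤ D i j

/-- The bound with exponent `p` and constant `C`, for pattern height `s`. -/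
def Bd (s : ℕ) (p C : ℝ) : Prop :=
  ∀ D : ℕ → ℕ → ℕ, IMono D → ∀ (V h T : ℕ) (X : Finset ℕ), 2 ^ s * V + 1 ≤ h → h ≤ T →
    (∀ x ∈ X, ∀ y ∈ X, x < y → h ≤ D x y ∧ D x y ≤ T) → Free D s V X →
    (X.card : ℝ) ≤ C * ((T : ℝ) / h) ^ p

theorem bd_zero {p : ℝ} (hp : 0 ≤ p) : Bd 0 p 1 := by
  intro D _ V h T X hV hT hX hF
  have h1 : X.card ≤ 1 := hF.card_le_one (by simpa using hV) (fun x hx y hy hxy =>
    (hX x hx y hy hxy).1)
  have h2 : (1 : ℝ) ≤ (T : ℝ) / h := by
    rw [one_le_div (by exact_mod_cast (by omega : 0 < h))]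
    exact_mod_cast hT
  have h3 : (1 : ℝ) ≤ ((T : ℝ) / h) ^ p := Real.one_le_rpow h2 hp
  have h4 : (X.card : ℝ) ≤ 1 := by exact_mod_cast h1
  linarith

/-- The arithmetic choice of the constants. -/
theorem exists_scale {C' a q : ℝ} (hq0 : 0 < q) (hq1 : q < 1) (hC' : 0 ≤ C') (ha : 0 < a) :
    ∃ i0 : ℕ, 1 ≤ i0 ∧ C' * a * (q ^ i0 / (1 - q)) ≤ 1 / 2 := by
  have h1 : 0 < (1 - q) / (2 * (C' * a + 1)) := by
    have : 0 < 1 - q := by linarith
    positivity
  obtain ⟨n, hn⟩ := exists_pow_lt_of_lt_one h1 hq1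
  refine ⟨n + 1, by omega, ?_⟩
  have h2 : q ^ (n + 1) ≤ q ^ n := pow_le_pow_of_le_one hq0.le hq1.le (by omega)
  have h3 : q ^ (n + 1) / (1 - q) ≤ 1 / (2 * (C' * a + 1)) := by
    rw [div_le_iff₀ (by linarith)]
    calc q ^ (n + 1) ≤ q ^ n := h2
      _ ≤ (1 - q) / (2 * (C' * a + 1)) := hn.le
      _ = 1 / (2 * (C' * a + 1)) * (1 - q) := by ring
  have h4 : 0 ≤ C' * a := by positivity
  calc C' * a * (q ^ (n + 1) / (1 - q)) ≤ C' * a * (1 / (2 * (C' * a + 1))) :=
        mul_le_mul_of_nonneg_left h3 h4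
    _ ≤ 1 / 2 := by
        rw [mul_one_div, div_le_div_iff₀ (by positivity) (by norm_num)]
        nlinarith

/-- a finite geometric tail -/
theorem geom_tail {q : ℝ} (hq0 : 0 < q) (hq1 : q < 1) (i0 L : ℕ) :
    ∑ j ∈ Finset.Ico i0 L, q ^ j ≤ q ^ i0 / (1 - q) := by
  by_cases h : i0 ≤ L
  · rw [geom_sum_Ico hq1.ne h]
    have h1 : (0 : ℝ) < 1 - q := by linarith
    have h2 : (q ^ L - q ^ i0) / (q - 1) = (q ^ i0 - q ^ L) / (1 - q) := by
      rw [← neg_div_neg_eq]
      congr 1 <;> ring
    rw [h2]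
    apply div_le_div_of_nonneg_right _ h1.le
    have : 0 < q ^ L := by positivity
    linarith
  · rw [Finset.Ico_eq_empty_of_le (by omega)]
    have h1 : (0 : ℝ) < 1 - q := by linarith
    simp only [Finset.sum_empty]
    positivity

theorem bd_succ {s : ℕ} {p' p C' : ℝ} (hp' : 0 < p') (hpp : p' < p) (hp1 : 1 ≤ p) (hC' : 0 ≤ C')
    (hB : Bd s p' C') : ∃ C : ℝ, 0 ≤ C ∧ Bd (s + 1) p C := by
  set a : ℝ := (2 : ℝ) ^ p' with ha
  set b : ℝ := (2 : ℝ) ^ p with hb
  have ha0 : 0 < a := by positivity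
  have hb0 : 0 < b := by positivity
  have hab : a < b := by
    rw [ha, hb]
    exact Real.rpow_lt_rpow_of_exponent_lt (by norm_num) hpp
  have hq0 : 0 < a / b := by positivity
  have hq1 : a / b < 1 := by rw [div_lt_one hb0]; exact hab
  obtain ⟨i0, hi0, hi0'⟩ := exists_scale hq0 hq1 hC' ha0
  set C : ℝ := 2 * (C' * (2 ^ (s + 1) + 1) * a ^ i0 + 1) with hC
  have hC0 : 0 ≤ C := by positivity
  refine ⟨C, hC0, ?_⟩
  intro D hD
  -- strong induction on the logarithmic scale
  have main : ∀ (L V h T : ℕ) (X : Finset ℕ), T < 2 ^ L * h → 2 ^ (s + 1) * V + 1 ≤ h → h ≤ T →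
      (∀ x ∈ X, ∀ y ∈ X, x < y → h ≤ D x y ∧ D x y ≤ T) → Free D (s + 1) V X →
      (X.card : ℝ) ≤ C * ((T : ℝ) / h) ^ p := by
    intro L
    induction L using Nat.strong_induction_on with
    | _ L IH =>
    intro V h T X hTL hV hT hX hF
    have hh0 : 0 < h := by omega
    have hhR : (0 : ℝ) < h := by exact_mod_cast hh0
    have hlam : (1 : ℝ) ≤ (T : ℝ) / h := by
      rw [one_le_div hhR]; exact_mod_cast hT
    set lam : ℝ := (T : ℝ) / h with hlamdef
    have hlam0 : (0 : ℝ) < lam := by linarith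
    have hlamp : lam ≤ lam ^ p := by
      calc lam = lam ^ (1 : ℝ) := (Real.rpow_one _).symm
        _ ≤ lam ^ p := Real.rpow_le_rpow_of_exponent_le hlam hp1
    rcases X.eq_empty_or_nonempty with hXe | hXne
    · rw [hXe]
      simp only [Finset.card_empty, Nat.cast_zero]
      positivity
    set ρ := X.min' hXne with hρ
    have hρX : ρ ∈ X := X.min'_mem hXne
    set Y := X.erase ρ with hY
    have hYX : Y ⊆ X := X.erase_subset ρ
    have hρY : ∀ y ∈ Y, ρ < y := by
      intro y hy
      rw [hY, Finset.mem_erase] at hy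
      exact lt_of_le_of_ne (X.min'_le y hy.2) (Ne.symm hy.1)
    have hcard : X.card = Y.card + 1 := (Finset.card_erase_add_one hρX).symm
    set v := (h - 1) / 2 ^ (s + 1) with hv
    have hv1 : 2 ^ (s + 1) * v ≤ h - 1 := Nat.mul_div_le _ _
    have hv2 : h ≤ 2 ^ (s + 1) * (v + 1) := by
      have := Nat.lt_mul_div_succ (h - 1) (show 0 < 2 ^ (s + 1) by positivity)
      rw [← hv] at this
      omega
    set κ : ℕ → ℕ := fun y => D ρ y / (v + 1) with hκ
    have hκmono : ∀ x ∈ Y, ∀ y, x ≤ y → κ x ≤ κ y := by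
      intro x hx y hxy
      exact Nat.div_le_div_right (hD ρ ρ x y le_rfl (hρY x hx) hxy)
    set K := T / (v + 1) + 1 with hK
    have hκK : ∀ y ∈ Y, κ y ∈ Finset.range K := by
      intro y hy
      rw [Finset.mem_range, hK, Nat.lt_succ_iff]
      exact Nat.div_le_div_right (hX ρ hρX y (hYX hy) (hρY y hy)).2
    have hKR : (K : ℝ) ≤ (2 ^ (s + 1) + 1) * lam := by
      have h1 : ((T / (v + 1) : ℕ) : ℝ) ≤ (T : ℝ) / ((v + 1 : ℕ) : ℝ) := Nat.cast_div_le
      have h2 : (T : ℝ) / ((v + 1 : ℕ) : ℝ) ≤ 2 ^ (s + 1) * lam := by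
        rw [div_le_iff₀ (by positivity), hlamdef]
        rw [show (2 : ℝ) ^ (s + 1) * ((T : ℝ) / h) * ((v + 1 : ℕ) : ℝ)
          = T * ((2 ^ (s + 1) * ((v + 1 : ℕ) : ℝ)) / h) by ring]
        have h3 : (1 : ℝ) ≤ (2 ^ (s + 1) * ((v + 1 : ℕ) : ℝ)) / h := by
          rw [one_le_div hhR]
          exact_mod_cast hv2
        nlinarith [Nat.cast_nonneg (α := ℝ) T]
      rw [hK]
      push_cast at h1 h2 ⊢
      nlinarith
    -- classes
    set Yc : ℕ → Finset ℕ := fun c => Y.filter (fun y => κ y = c) with hYc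
    have hYcY : ∀ c, Yc c ⊆ Y := fun c => Finset.filter_subset _ _
    have hsum : Y.card = ∑ c ∈ Finset.range K, (Yc c).card :=
      Finset.card_eq_sum_card_fiberwise hκK
    set Tc : ℕ → ℕ := fun c =>
      max h (((Yc c ×ˢ Yc c).filter (fun z => z.1 < z.2)).sup (fun z => D z.1 z.2)) with hTc
    have hTcT : ∀ c, Tc c ≤ T := by
      intro c
      rw [hTc]
      refine max_le hT (Finset.sup_le ?_)
      intro z hz
      rw [Finset.mem_filter, Finset.mem_product] at hz
      exact (hX z.1 (hYX (hYcY c hz.1.1)) z.2 (hYX (hYcY c hz.1.2)) hz.2).2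
    have hhTc : ∀ c, h ≤ Tc c := fun c => le_max_left _ _
    have hVh : V + 1 ≤ h := by
      have : V ≤ 2 ^ (s + 1) * V := Nat.le_mul_of_pos_left V (by positivity)
      omega
    have hcardc : ∀ c, ((Yc c).card : ℝ) ≤ C' * ((Tc c : ℝ) / h) ^ p' := by
      intro c
      refine hB D hD (V + v) h (Tc c) (Yc c) ?_ (hhTc c) ?_ ?_
      · have : 2 ^ (s + 1) * V + 2 ^ (s + 1) * v ≤ 2 * (h - 1) := by omega
        have h5 : 2 * (2 ^ s * (V + v)) = 2 ^ (s + 1) * V + 2 ^ (s + 1) * v := by ring
        omega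
      · intro x hx y hy hxy
        refine ⟨(hX x (hYX (hYcY c hx)) y (hYX (hYcY c hy)) hxy).1, ?_⟩
        refine le_trans ?_ (le_max_right _ _)
        exact Finset.le_sup (f := fun z : ℕ × ℕ => D z.1 z.2) (b := (x, y))
          (Finset.mem_filter.2 ⟨Finset.mem_product.2 ⟨hx, hy⟩, hxy⟩)
      · refine hF.step ((hYcY c).trans hYX) hρX (fun y hy => hρY y (hYcY c hy)) ?_ ?_
        · intro x hx y hy
          have hx' : D ρ x / (v + 1) = c := (Finset.mem_filter.1 hx).2
          have hy' : D ρ y / (v + 1) = c := (Finset.mem_filter.1 hy).2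
          have h1 : D ρ x < (v + 1) * (c + 1) := by
            rw [← hx']
            exact Nat.lt_mul_div_succ _ (Nat.succ_pos v)
          have h2 : (v + 1) * c ≤ D ρ y := by
            rw [← hy']
            exact Nat.mul_div_le _ _
          have h3 : (v + 1) * (c + 1) = (v + 1) * c + (v + 1) := by ring
          omega
        · intro y hy
          have := (hX ρ hρX y (hYX (hYcY c hy)) (hρY y (hYcY c hy))).1
          omega
    -- number of classes of big span
    have hbig : ∀ i : ℕ, 1 ≤ i →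
        (((Finset.range K).filter (fun c => 2 ^ i * h ≤ Tc c)).card : ℝ) ≤ C * (lam ^ p / b ^ i) := by
      intro i hi
      set Si := (Finset.range K).filter (fun c => 2 ^ i * h ≤ Tc c) with hSi
      rcases Si.eq_empty_or_nonempty with hSe | hSne
      · rw [hSe]
        simp only [Finset.card_empty, Nat.cast_zero]
        positivity
      obtain ⟨c0, hc0⟩ := hSne
      have hTi : 2 ^ i * h ≤ T := le_trans (Finset.mem_filter.1 hc0).2 (hTcT c0)
      have hiL : i < L := by
        have : 2 ^ i * h < 2 ^ L * h := lt_of_le_of_lt hTi hTL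
        have h2 : 2 ^ i < 2 ^ L := Nat.lt_of_mul_lt_mul_right this
        exact (Nat.pow_lt_pow_iff_right (by norm_num)).1 h2
      have h2i : 2 ≤ 2 ^ i := by
        calc 2 = 2 ^ 1 := by norm_num
          _ ≤ 2 ^ i := Nat.pow_le_pow_right (by norm_num) hi
      have hex : ∀ c ∈ Si, ∃ x ∈ Yc c, ∃ y ∈ Yc c, x < y ∧ 2 ^ i * h ≤ D x y := by
        intro c hc
        have h1 : 2 ^ i * h ≤ Tc c := (Finset.mem_filter.1 hc).2
        have h2 : h < 2 ^ i * h := by nlinarith
        have h3 : 2 ^ i * h ≤ ((Yc c ×ˢ Yc c).filter (fun z => z.1 < z.2)).sup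
            (fun z => D z.1 z.2) := by
          rcases le_max_iff.1 h1 with h4 | h4
          · omega
          · exact h4
        rw [Finset.le_sup_iff (by rw [bot_eq_zero]; positivity)] at h3
        obtain ⟨z, hz, hz'⟩ := h3
        rw [Finset.mem_filter, Finset.mem_product] at hz
        exact ⟨z.1, hz.1.1, z.2, hz.1.2, hz.2, hz'⟩
      choose! xf hxf yf hyf hxyf hDf using hex
      have hκx : ∀ c ∈ Si, κ (xf c) = c := fun c hc => (Finset.mem_filter.1 (hxf c hc)).2
      have hκy : ∀ c ∈ Si, κ (yf c) = c := fun c hc => (Finset.mem_filter.1 (hyf c hc)).2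
      have hinj : Set.InjOn xf Si := by
        intro c hc c' hc' hcc
        rw [← hκx c hc, ← hκx c' hc', hcc]
      have hZcard : (Si.image xf).card = Si.card := Finset.card_image_of_injOn hinj
      have hZX : Si.image xf ⊆ X := by
        intro z hz
        obtain ⟨c, hc, rfl⟩ := Finset.mem_image.1 hz
        exact hYX (hYcY c (hxf c hc))
      have hIH := IH (L - i) (by omega) V (2 ^ i * h) T (Si.image xf) ?_ ?_ hTi ?_ (hF.subset hZX)
      · rw [hZcard] at hIH
        refine hIH.trans (le_of_eq ?_)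
        congr 1
        push_cast
        rw [show (T : ℝ) / (2 ^ i * h) = lam / 2 ^ i by rw [hlamdef]; field_simp]
        rw [Real.div_rpow hlam0.le (by positivity), hb]
        congr 1
        rw [← Real.rpow_natCast, ← Real.rpow_natCast, ← Real.rpow_mul (by norm_num),
          ← Real.rpow_mul (by norm_num), mul_comm]
      · rw [← mul_assoc, ← pow_add]
        rwa [Nat.sub_add_cancel hiL.le]
      · have : h ≤ 2 ^ i * h := Nat.le_mul_of_pos_left h (by positivity)
        omega
      · intro x hx y hy hxy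
        refine ⟨?_, (hX x (hZX hx) y (hZX hy) hxy).2⟩
        obtain ⟨c, hc, rfl⟩ := Finset.mem_image.1 hx
        obtain ⟨c', hc', rfl⟩ := Finset.mem_image.1 hy
        have h1 : c ≤ c' := by
          rw [← hκx c hc, ← hκx c' hc']
          exact hκmono _ (hYcY c (hxf c hc)) _ hxy.le
        have h2 : c ≠ c' := by
          rintro rfl
          exact lt_irrefl _ hxy
        have h3 : yf c < xf c' := by
          by_contra hcon
          push Not at hcon
          have := hκmono _ (hYcY c' (hxf c' hc')) _ hcon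
          rw [hκx c' hc', hκy c hc] at this
          omega
        exact (hDf c hc).trans (hD _ _ _ _ le_rfl (hxyf c hc) h3.le)
    -- pointwise bound
    have hpt : ∀ c ∈ Finset.range K, ((Tc c : ℝ) / h) ^ p' ≤ a ^ i0 +
        ∑ j ∈ Finset.Ico i0 L, a ^ (j + 1) * (if 2 ^ j * h ≤ Tc c then (1 : ℝ) else 0) := by
      intro c _
      have hpow : ∀ j : ℕ, Tc c < 2 ^ j * h → ((Tc c : ℝ) / h) ^ p' ≤ a ^ j := by
        intro j hj
        have h1 : (Tc c : ℝ) / h ≤ 2 ^ j := by
          rw [div_le_iff₀ hhR]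
          exact_mod_cast hj.le
        calc ((Tc c : ℝ) / h) ^ p' ≤ ((2 : ℝ) ^ j) ^ p' :=
              Real.rpow_le_rpow (by positivity) h1 hp'.le
          _ = a ^ j := by
              rw [ha, ← Real.rpow_natCast, ← Real.rpow_natCast, ← Real.rpow_mul (by norm_num),
                ← Real.rpow_mul (by norm_num), mul_comm]
      have hnn : ∀ j ∈ Finset.Ico i0 L,
          0 ≤ a ^ (j + 1) * (if 2 ^ j * h ≤ Tc c then (1 : ℝ) else 0) := by
        intro j _
        split_ifs <;> positivity
      by_cases hsmall : Tc c < 2 ^ i0 * h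
      · have := hpow i0 hsmall
        have := Finset.sum_nonneg hnn
        linarith
      · push Not at hsmall
        -- exact scale
        have hexj : ∃ j, Tc c < 2 ^ (j + 1) * h := by
          refine ⟨L, ?_⟩
          have : T < 2 ^ L * h := hTL
          have h2 : 2 ^ L * h ≤ 2 ^ (L + 1) * h :=
            Nat.mul_le_mul_right _ (Nat.pow_le_pow_right (by norm_num) (by omega))
          exact lt_of_le_of_lt (hTcT c) (lt_of_lt_of_le this h2)
        classical
        set j := Nat.find hexj with hj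
        have hj1 : Tc c < 2 ^ (j + 1) * h := Nat.find_spec hexj
        have hij : i0 ≤ j := by
          by_contra hcon
          push Not at hcon
          have h3 : 2 ^ (j + 1) * h ≤ 2 ^ i0 * h :=
            Nat.mul_le_mul_right _ (Nat.pow_le_pow_right (by norm_num) (by omega))
          omega
        have hj2 : 2 ^ j * h ≤ Tc c := by
          by_contra hcon
          push Not at hcon
          have : j - 1 < j := by omega
          have h4 := Nat.find_min hexj this
          apply h4
          rwa [Nat.sub_add_cancel (by omega)]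
        have hjL : j < L := by
          have h5 : 2 ^ j * h < 2 ^ L * h := lt_of_le_of_lt hj2 (lt_of_le_of_lt (hTcT c) hTL)
          have h6 : 2 ^ j < 2 ^ L := Nat.lt_of_mul_lt_mul_right h5
          exact (Nat.pow_lt_pow_iff_right (by norm_num)).1 h6
        have h7 := hpow (j + 1) hj1
        have h8 : a ^ (j + 1) * (if 2 ^ j * h ≤ Tc c then (1 : ℝ) else 0) ≤
            ∑ j ∈ Finset.Ico i0 L, a ^ (j + 1) * (if 2 ^ j * h ≤ Tc c then (1 : ℝ) else 0) :=
          Finset.single_le_sum (f := fun j => a ^ (j + 1) *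
            (if 2 ^ j * h ≤ Tc c then (1 : ℝ) else 0)) hnn (Finset.mem_Ico.2 ⟨hij, hjL⟩)
        rw [if_pos hj2, mul_one] at h8
        have : 0 < a ^ i0 := by positivity
        linarith
    have hswap : ∑ c ∈ Finset.range K, ((Tc c : ℝ) / h) ^ p' ≤ K * a ^ i0 +
        ∑ j ∈ Finset.Ico i0 L, a ^ (j + 1) *
          (((Finset.range K).filter (fun c => 2 ^ j * h ≤ Tc c)).card : ℝ) := by
      refine (Finset.sum_le_sum hpt).trans (le_of_eq ?_)
      rw [Finset.sum_add_distrib, Finset.sum_const, Finset.card_range, nsmul_eq_mul,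
        Finset.sum_comm]
      congr 1
      refine Finset.sum_congr rfl fun j _ => ?_
      rw [← Finset.mul_sum, Finset.sum_boole]
    have hsum2 : ∑ j ∈ Finset.Ico i0 L, a ^ (j + 1) *
          (((Finset.range K).filter (fun c => 2 ^ j * h ≤ Tc c)).card : ℝ) ≤
        C * lam ^ p * a * ((a / b) ^ i0 / (1 - a / b)) := by
      calc ∑ j ∈ Finset.Ico i0 L, a ^ (j + 1) *
          (((Finset.range K).filter (fun c => 2 ^ j * h ≤ Tc c)).card : ℝ)
          ≤ ∑ j ∈ Finset.Ico i0 L, a ^ (j + 1) * (C * (lam ^ p / b ^ j)) := by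
            refine Finset.sum_le_sum fun j hj => ?_
            refine mul_le_mul_of_nonneg_left (hbig j ?_) (by positivity)
            have := (Finset.mem_Ico.1 hj).1
            omega
        _ = C * lam ^ p * a * ∑ j ∈ Finset.Ico i0 L, (a / b) ^ j := by
            rw [Finset.mul_sum]
            refine Finset.sum_congr rfl fun j _ => ?_
            rw [div_pow]
            ring
        _ ≤ C * lam ^ p * a * ((a / b) ^ i0 / (1 - a / b)) := by
            refine mul_le_mul_of_nonneg_left (geom_tail hq0 hq1 i0 L) (by positivity)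
    have hfin : (Y.card : ℝ) ≤ C' * ((2 ^ (s + 1) + 1) * lam * a ^ i0 +
        C * lam ^ p * a * ((a / b) ^ i0 / (1 - a / b))) := by
      rw [hsum]
      push_cast
      calc ∑ c ∈ Finset.range K, ((Yc c).card : ℝ)
          ≤ ∑ c ∈ Finset.range K, C' * ((Tc c : ℝ) / h) ^ p' :=
            Finset.sum_le_sum fun c _ => hcardc c
        _ = C' * ∑ c ∈ Finset.range K, ((Tc c : ℝ) / h) ^ p' := by rw [Finset.mul_sum]
        _ ≤ C' * ((2 ^ (s + 1) + 1) * lam * a ^ i0 +
            C * lam ^ p * a * ((a / b) ^ i0 / (1 - a / b))) := by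
          refine mul_le_mul_of_nonneg_left ?_ hC'
          refine hswap.trans (add_le_add ?_ hsum2)
          exact mul_le_mul_of_nonneg_right hKR (by positivity)
    have h9 : C' * (C * lam ^ p * a * ((a / b) ^ i0 / (1 - a / b))) ≤ C / 2 * lam ^ p := by
      have : C' * (C * lam ^ p * a * ((a / b) ^ i0 / (1 - a / b)))
          = (C' * a * ((a / b) ^ i0 / (1 - a / b))) * (C * lam ^ p) := by ring
      rw [this]
      have h10 : 0 ≤ C * lam ^ p := by positivity
      calc (C' * a * ((a / b) ^ i0 / (1 - a / b))) * (C * lam ^ p)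
          ≤ 1 / 2 * (C * lam ^ p) := mul_le_mul_of_nonneg_right hi0' h10
        _ = C / 2 * lam ^ p := by ring
    have h11 : C' * ((2 ^ (s + 1) + 1) * lam * a ^ i0) + 1 ≤ C / 2 * lam ^ p := by
      have h12 : C / 2 = C' * (2 ^ (s + 1) + 1) * a ^ i0 + 1 := by rw [hC]; ring
      rw [h12]
      have h13 : 0 ≤ C' * (2 ^ (s + 1) + 1) * a ^ i0 := by positivity
      have h14 : C' * ((2 ^ (s + 1) + 1) * lam * a ^ i0)
          = C' * (2 ^ (s + 1) + 1) * a ^ i0 * lam := by ring
      rw [h14]
      have h15 := mul_le_mul_of_nonneg_left hlamp h13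
      have h16 : (1 : ℝ) ≤ lam ^ p := hlam.trans hlamp
      calc C' * (2 ^ (s + 1) + 1) * a ^ i0 * lam + 1
          ≤ C' * (2 ^ (s + 1) + 1) * a ^ i0 * lam ^ p + lam ^ p := add_le_add h15 h16
        _ = (C' * (2 ^ (s + 1) + 1) * a ^ i0 + 1) * lam ^ p := by ring
    have h17 : C' * ((2 ^ (s + 1) + 1) * lam * a ^ i0 +
        C * lam ^ p * a * ((a / b) ^ i0 / (1 - a / b)))
        = C' * ((2 ^ (s + 1) + 1) * lam * a ^ i0)
          + C' * (C * lam ^ p * a * ((a / b) ^ i0 / (1 - a / b))) := by ring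
    rw [h17] at hfin
    rw [hcard, Nat.cast_add, Nat.cast_one]
    have h18 : C * lam ^ p = C / 2 * lam ^ p + C / 2 * lam ^ p := by ring
    rw [h18]
    linarith only [hfin, h9, h11]
  intro V h T X hV hT hX hF
  obtain ⟨L, hL⟩ : ∃ L : ℕ, T < 2 ^ L * h := by
    refine ⟨T, ?_⟩
    have h1 : T < 2 ^ T := Nat.lt_two_pow_self
    have h2 : 2 ^ T ≤ 2 ^ T * h := Nat.le_mul_of_pos_right _ (by omega)
    omega
  exact main L V h T X hL hV hT hX hF

theorem exists_bd (s : ℕ) : ∀ p : ℝ, 1 < p → ∃ C : ℝ, 0 ≤ C ∧ Bd s p C := by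
  induction s with
  | zero =>
    intro p hp
    exact ⟨1, by norm_num, bd_zero (by linarith)⟩
  | succ s ih =>
    intro p hp
    obtain ⟨C', hC', hB⟩ := ih ((1 + p) / 2) (by linarith)
    exact bd_succ (by linarith) (by linarith) hp.le hC' hB

end Pool.Agent.Lib_helper84.Garside
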