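import Pool.Agent.Lib_helper84.GarsideComb

/-!
# Chains in a lattice with a shift

`P` is a lattice with a map `T` which behaves as the multiplication by the Garside element.
-/

set_option autoImplicit false

namespace Pool.Agent.Lib_helper84.Garside

open Finset

variable {P : Type*} [Lattice P]

/-- A shift of height at most `r` on a lattice. -/
structure Shift (T : P → P) (r : ℕ) : Prop where
  le_iff : ∀ x y, T x ≤ T y ↔ x ≤ y
  le_self : ∀ x, x ≤ T x
  map_inf : ∀ x y, T (x ⊓ y) = T x ⊓ T y
  height : ∀ (s : ℕ) (c : ℕ → P), (∀ i < s, c i < c (i + 1)) → c s ≤ T (c 0) → s ≤ r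
  cofinal : ∀ x y, ∃ t : ℕ, y ≤ T^[t] x

/-- The least `t` with `y ≤ T^t x`. -/
noncomputable def dst (T : P → P) (x y : P) : ℕ := sInf {t : ℕ | y ≤ T^[t] x}

namespace Shift

variable {T : P → P} {r : ℕ} (hT : Shift T r)
include hT

theorem iter_le_iff (t : ℕ) (x y : P) : T^[t] x ≤ T^[t] y ↔ x ≤ y := by
  induction t with
  | zero => rfl
  | succ t ih => rw [Function.iterate_succ_apply', Function.iterate_succ_apply', hT.le_iff, ih]

theorem iter_mono {s t : ℕ} (h : s ≤ t) (x : P) : T^[s] x ≤ T^[t] x := by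
  induction t, h using Nat.le_induction with
  | base => exact le_rfl
  | succ t _ ih =>
    rw [Function.iterate_succ_apply']
    exact ih.trans (hT.le_self _)

theorem le_iter_iff (x y : P) (t : ℕ) : y ≤ T^[t] x ↔ dst T x y ≤ t := by
  constructor
  · intro h
    exact Nat.sInf_le h
  · intro h
    have h1 : y ≤ T^[dst T x y] x := Nat.sInf_mem (s := {t : ℕ | y ≤ T^[t] x}) (hT.cofinal x y)
    exact h1.trans (hT.iter_mono h x)

theorem le_iter_dst (x y : P) : y ≤ T^[dst T x y] x := (hT.le_iter_iff x y _).2 le_rfl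

theorem dst_mono {x x' y y' : P} (hx : x ≤ x') (hy : y' ≤ y) : dst T x' y' ≤ dst T x y := by
  rw [← hT.le_iter_iff]
  exact hy.trans ((hT.le_iter_dst x y).trans ((hT.iter_le_iff _ _ _).2 hx))

/-- The pattern lemma. -/
theorem pattern (S : ℕ) (Q : ℕ → P) (v : ℕ → ℕ) (hQ : ∀ a < S, Q a ≤ Q (a + 1))
    (h1 : ∀ a b, a < b → b ≤ S → dst T (Q a) (Q b) ≤ dst T (Q a) (Q (a + 1)) + v a)
    (h2 : ∀ a < S, 1 + ∑ c ∈ range a, v c ≤ dst T (Q a) (Q (a + 1))) : S ≤ r := by
  rcases Nat.eq_zero_or_pos S with hS | hS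
  · omega
  have hQmono : ∀ a b, a ≤ b → b ≤ S → Q a ≤ Q b := by
    intro a b hab
    induction b, hab using Nat.le_induction with
    | base => intro _; exact le_rfl
    | succ b _ ih => intro hb; exact (ih (by omega)).trans (hQ b (by omega))
  set β : ℕ → ℕ := fun a => ∑ c ∈ range a, v c with hβ
  have hβsucc : ∀ a, β (a + 1) = β a + v a := fun a => Finset.sum_range_succ _ _
  have hβmono : ∀ a b, a ≤ b → β a ≤ β b := by
    intro a b hab
    exact Finset.sum_le_sum_of_subset (Finset.range_subset_range.2 hab)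
  set N := β S with hN
  set δ : ℕ → ℕ := fun a => dst T (Q a) (Q (a + 1)) with hδ
  set t : ℕ → P := fun a => T^[N + (δ a - β a - 1)] (Q a) with ht
  set w : ℕ → P := fun b => T^[N - β b] (Q (b + 1)) with hw
  have hδβ : ∀ a < S, 1 + β a ≤ δ a := h2
  have key1 : ∀ a < S, ∀ b < S, w b ≤ T (t a) := by
    intro a ha b hb
    have e1 : T (t a) = T^[N + (δ a - β a - 1) + 1] (Q a) := by
      rw [Function.iterate_succ_apply']
    rw [e1]
    have hba := hδβ a ha
    rcases lt_or_ge b a with hlt | hge
    · calc w b ≤ T^[N - β b] (Q a) := (hT.iter_le_iff _ _ _).2 (hQmono _ _ (by omega) (by omega))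
        _ ≤ _ := hT.iter_mono (by omega) _
    · have e2 : w b ≤ T^[N - β b] (T^[dst T (Q a) (Q (b + 1))] (Q a)) :=
        (hT.iter_le_iff _ _ _).2 (hT.le_iter_dst _ _)
      refine e2.trans ?_
      rw [← Function.iterate_add_apply]
      refine hT.iter_mono ?_ _
      have hβa : β a ≤ N := hβmono a S (by omega)
      have hβb : β b ≤ N := hβmono b S (by omega)
      rcases Nat.eq_or_lt_of_le hge with heq | hlt
      · subst heq
        change N - β a + δ a ≤ _
        omega
      · have e3 : dst T (Q a) (Q (b + 1)) ≤ δ a + v a := h1 a (b + 1) (by omega) (by omega)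
        have e4 : β (a + 1) ≤ β b := hβmono _ _ hlt
        rw [hβsucc] at e4
        omega
  have key2 : ∀ a < S, ∀ b < a, w b ≤ t a := by
    intro a ha b hb
    calc w b ≤ T^[N - β b] (Q a) := (hT.iter_le_iff _ _ _).2 (hQmono _ _ (by omega) (by omega))
      _ ≤ _ := hT.iter_mono (by omega) _
  have key3 : ∀ a < S, ¬ w a ≤ t a := by
    intro a ha hcon
    have hba := hδβ a ha
    have hβa : β a ≤ N := hβmono a S (by omega)
    have e1 : t a = T^[N - β a] (T^[δ a - 1] (Q a)) := by
      rw [← Function.iterate_add_apply]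
      change T^[N + (δ a - β a - 1)] (Q a) = _
      congr 1
      have : N + (δ a - β a - 1) = N - β a + (δ a - 1) := by omega
      rw [this]
    rw [e1] at hcon
    have e2 : Q (a + 1) ≤ T^[δ a - 1] (Q a) := (hT.iter_le_iff _ _ _).1 hcon
    rw [hT.le_iter_iff] at e2
    change δ a ≤ δ a - 1 at e2
    omega
  have hne : (range S).Nonempty := ⟨0, mem_range.2 hS⟩
  set c0 : P := (range S).inf' hne t with hc0
  set c : ℕ → P := fun l => Nat.rec c0 (fun l x => x ⊔ w l) l with hc
  have hcs : ∀ l, c (l + 1) = c l ⊔ w l := fun l => rfl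
  have hcz : c 0 = c0 := rfl
  have hcle : ∀ (z : P) (l : ℕ), c0 ≤ z → (∀ b < l, w b ≤ z) → c l ≤ z := by
    intro z l hz
    induction l with
    | zero => intro _; exact hz
    | succ l ih =>
      intro hb
      rw [hcs]
      exact sup_le (ih fun b hb' => hb b (by omega)) (hb l (by omega))
  refine hT.height S c ?_ ?_
  · intro l hl
    rw [hcs]
    refine lt_of_le_of_ne le_sup_left ?_
    intro heq
    have e1 : w l ≤ c l := by
      rw [heq]
      exact le_sup_right
    have e2 : c l ≤ t l := hcle _ _ (Finset.inf'_le _ (mem_range.2 hl)) (key2 l hl)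
    exact key3 l hl (e1.trans e2)
  · rw [hcz]
    refine hcle _ _ (hT.le_self _) ?_
    intro b hb
    rw [hc0, Finset.apply_inf'_eq_inf'_comp hne T hT.map_inf]
    refine Finset.le_inf' _ _ ?_
    intro a ha
    exact key1 a (mem_range.1 ha) b hb

/-- The bound for chains. -/
theorem chain_bound {p C : ℝ} (hB : Bd r p C) {n k : ℕ} (hk : 1 ≤ k) (x : ℕ → P)
    (hx : ∀ i < n, x i < x (i + 1)) (hxn : x n ≤ T^[k] (x 0)) :
    ((n + 1 : ℕ) : ℝ) ≤ C * (k : ℝ) ^ p := by
  have hmono : ∀ i j, i ≤ j → j ≤ n → x i ≤ x j := by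
    intro i j hij
    induction j, hij using Nat.le_induction with
    | base => intro _; exact le_rfl
    | succ j _ ih => intro hj; exact (ih (by omega)).trans (hx j (by omega)).le
  set y : ℕ → P := fun i => x (min i n) with hy
  have hymono : ∀ i j, i ≤ j → y i ≤ y j := by
    intro i j hij
    exact hmono _ _ (by omega) (by omega)
  have hylt : ∀ i j, i < j → j ≤ n → y i < y j := by
    intro i j hij hj
    have e1 : y i = x i := by
      change x (min i n) = x i
      rw [min_eq_left (by omega)]
    have e2 : y j = x j := by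
      change x (min j n) = x j
      rw [min_eq_left hj]
    rw [e1, e2]
    exact (hx i (by omega)).trans_le (hmono _ _ (by omega) hj)
  have hfin := hB (fun i j => dst T (y i) (y j)) ?_ 0 1 k (range (n + 1)) (by simp) hk ?_ ?_
  · simpa using hfin
  · intro i i' j' j h1 h2 h3
    exact hT.dst_mono (hymono _ _ h1) (hymono _ _ h3)
  · intro i hi j hj hij
    rw [mem_range] at hi hj
    constructor
    · by_contra hcon
      have e1 : y j ≤ T^[0] (y i) := (hT.le_iter_iff _ _ _).2 (by omega)
      exact absurd (hylt i j hij (by omega)) (not_lt_of_ge e1)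
    · rw [← hT.le_iter_iff]
      have e1 : y j ≤ y n := hymono _ _ (by omega)
      have e2 : y n = x n := by
        change x (min n n) = x n
        rw [min_self]
      have e3 : y 0 = x 0 := by
        change x (min 0 n) = x 0
        rw [Nat.zero_min]
      have e4 : T^[k] (x 0) ≤ T^[k] (y i) := by
        rw [hT.iter_le_iff, ← e3]
        exact hymono _ _ (by omega)
      exact e1.trans ((e2.le.trans hxn).trans e4)
  · intro S Q v q1 q2 q3 q4
    refine hT.pattern S (fun a => y (Q a)) v ?_ ?_ ?_
    · intro a ha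
      exact hymono _ _ (q2 a ha).le
    · intro a b hab hb
      exact q3 a b hab hb
    · intro a ha
      have := q4 a ha
      omega

end Shift

end Pool.Agent.Lib_helper84.Garside
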