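import Mathlib

/-!
# NIP theories, definable groups, and the space `S_G^{fs}(N, M)`

Conventions. Formulas with parameters from a set `A` and free variables `x_1, …, x_k` are
`L`-formulas whose variables are indexed by `A ⊕ Fin k`: the variable `a : A` stands for the
parameter `a`. Such a formula is evaluated at a tuple `x` by `φ.Realize (Sum.elim (↑) x)`.
-/

namespace Pool.Agent.Lib_helper84.NIP

open FirstOrder FirstOrder.Language Cardinal Set

universe u v w

/-- The theory `T` is NIP: no partitioned formula `φ(x; y)` has the independence property in a model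
of `T`, i.e. there are no tuples `a_i` (`i ∈ ℕ`) and `b_s` (`s ⊆ ℕ`) in a model of `T` such that
`φ(a_i; b_s)` holds exactly when `i ∈ s`. -/
def IsNIP {L : FirstOrder.Language.{u, v}} (T : L.Theory) : Prop :=
  ∀ (n m : ℕ) (φ : L.Formula (Fin n ⊕ Fin m)) (M : Type w) [L.Structure M] [Nonempty M] [M ⊨ T],
    ¬ ∃ (a : ℕ → Fin n → M) (b : Set ℕ → Fin m → M),
      ∀ (i : ℕ) (s : Set ℕ), φ.Realize (Sum.elim (a i) (b s)) ↔ i ∈ s

/-- `N` is `κ`-saturated: for every `A ⊆ N` with `|A| < κ`, every set of formulas over `A` in finitely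
many free variables which is finitely satisfiable in `N` is realised in `N`. -/
def IsSaturated (L : FirstOrder.Language.{u, v}) (κ : Cardinal.{w}) (N : Type w) [L.Structure N] : Prop :=
  ∀ (A : Set N), #A < κ → ∀ (n : ℕ) (Φ : Set (L.Formula (A ⊕ Fin n))),
    (∀ F : Finset (L.Formula (A ⊕ Fin n)), (F : Set (L.Formula (A ⊕ Fin n))) ⊆ Φ →
      ∃ x : Fin n → N, ∀ φ ∈ F, φ.Realize (Sum.elim Subtype.val x)) →
    ∃ x : Fin n → N, ∀ φ ∈ Φ, φ.Realize (Sum.elim Subtype.val x)

/-- A group `0`-definable in `M`: `L`-formulas `dom` (defining the underlying set, a set of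
`arity`-tuples) and `mulGraph` such that the set defined by `dom` in `M` carries a group structure
whose multiplication has the graph defined by `mulGraph`. -/
structure DefGroup (L : FirstOrder.Language.{u, v}) (M : Type w) [L.Structure M] where
  arity : ℕ
  dom : L.Formula (Fin arity)
  mulGraph : L.Formula (Fin arity ⊕ Fin arity ⊕ Fin arity)
  [group : Group {x : Fin arity → M // dom.Realize x}]
  mul_iff : ∀ x y z : {x : Fin arity → M // dom.Realize x},
    mulGraph.Realize (Sum.elim x.1 (Sum.elim y.1 z.1)) ↔ x * y = z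

attribute [instance] DefGroup.group

variable {L : FirstOrder.Language.{u, v}} {M N : Type w} [L.Structure M] [L.Structure N]

/-- The group `G(M)`. -/
abbrev DefGroup.Pts (G : DefGroup L M) : Type w := {x : Fin G.arity → M // G.dom.Realize x}

/-- `tp(a/N)`, for a tuple `a` in an elementary extension `j : N → N'` of `N`. -/
def tp {N' : Type w} [L.Structure N'] (j : N ↪ₑ[L] N') {k : ℕ} (a : Fin k → N') :
    Set (L.Formula (N ⊕ Fin k)) :=
  {φ | φ.Realize (Sum.elim j a)}

/-- `S_G^{fs}(N, M)`: complete types over `N`, finitely satisfiable in `M`, concentrated on `G`.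
(A complete type over `N` which is finitely satisfiable in `M` is the same thing as a set `p` of
formulas over `N` containing each formula or its negation, such that each finite subset of `p` is
satisfied in `N` by a tuple from `M`.) Here `e : M → N` is the elementary embedding. -/
@[ext]
structure FSType (e : M ↪ₑ[L] N) (G : DefGroup L M) where
  formulas : Set (L.Formula (N ⊕ Fin G.arity))
  complete : ∀ φ, φ ∈ formulas ∨ ∼φ ∈ formulas
  finSat : ∀ F : Finset (L.Formula (N ⊕ Fin G.arity)),
    (F : Set (L.Formula (N ⊕ Fin G.arity))) ⊆ formulas →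
    ∃ m : Fin G.arity → M, ∀ φ ∈ F, φ.Realize (Sum.elim id (e ∘ m))
  dom_mem : G.dom.relabel Sum.inr ∈ formulas

variable {e : M ↪ₑ[L] N} {G : DefGroup L M}

/-- The usual topology on the space of types, with the sets `[φ] = {p : φ ∈ p}` as a basis. -/
instance FSType.topologicalSpace : TopologicalSpace (FSType e G) :=
  TopologicalSpace.generateFrom (Set.range fun φ : L.Formula (N ⊕ Fin G.arity) =>
    {p : FSType e G | φ ∈ p.formulas})

/-- `r = p * q`: there are an elementary extension `j : N → N'` and tuples `a ⊨ p`, `b ⊨ q` in `N'`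
such that `tp(a/N, b)` is finitely satisfiable in `M`, and `r` is the type over `N` of the product
`c = a b`, computed in the group `G(N')`. -/
def IsProd (p q r : FSType e G) : Prop :=
  ∃ (N' : Type w) (_ : L.Structure N') (j : N ↪ₑ[L] N') (a b c : Fin G.arity → N'),
    tp j a = p.formulas ∧ tp j b = q.formulas ∧
    (∀ θ : L.Formula ((N ⊕ Fin G.arity) ⊕ Fin G.arity),
      θ.Realize (Sum.elim (Sum.elim j b) a) →
      ∃ m : Fin G.arity → M, θ.Realize (Sum.elim (Sum.elim j b) (j ∘ e ∘ m))) ∧
    G.dom.Realize c ∧ G.mulGraph.Realize (Sum.elim a (Sum.elim b c)) ∧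
    r.formulas = tp j c

end Pool.Agent.Lib_helper84.NIP
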