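import Pool.Agent.Lib_helper84.TauAbstract

/-!
# The `τ`-topology: Hausdorffness in the presence of polynomial growth of patterns
-/

set_option linter.unusedSectionVars false
set_option warn.classDefReducibility false

namespace Pool.Agent.Lib_helper84.Tau

open Topology Filter Set

universe u v

/-! ### Two general topological lemmas -/

section Gen

theorem exists_interior_closure_nonempty {X : Type*} [TopologicalSpace X] [Nonempty X] {ι : Type*}
    (F : Finset ι) (B : ι → Set X) (h : ∀ x, ∃ i ∈ F, x ∈ B i) :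
    ∃ i ∈ F, (interior (closure (B i))).Nonempty := by
  classical
  by_contra hcon
  push Not at hcon
  have key : ∀ F' : Finset ι, F' ⊆ F → interior (⋃ i ∈ F', closure (B i)) = ∅ := by
    intro F'
    induction F' using Finset.induction_on with
    | empty => intro _; simp
    | insert a F'' ha ih =>
      intro hF
      rw [Finset.set_biUnion_insert, interior_union_isClosed_of_interior_empty isClosed_closure]
      · exact hcon a (hF (Finset.mem_insert_self _ _))
      · exact ih (fun i hi => hF (Finset.mem_insert_of_mem hi))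
  have h1 := key F (Finset.Subset.refl _)
  have h2 : (⋃ i ∈ F, closure (B i)) = univ := by
    rw [eq_univ_iff_forall]
    intro x
    obtain ⟨i, hi, hx⟩ := h x
    exact mem_biUnion hi (subset_closure hx)
  rw [h2, interior_univ] at h1
  exact (univ_nonempty (α := X)).ne_empty h1

/-- In a group with a topology for which all translations are continuous and which is not
Hausdorff, there is `h₀ ≠ 1` such that for every finite cover there are a member `B i` of the cover
and an element `v` with `v` and all `v a h₀ a⁻¹` in the closure of `B i`. -/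
theorem exists_bad {X : Type*} [Group X] [TopologicalSpace X]
    (hl : ∀ a : X, Continuous (fun x => a * x)) (hr : ∀ a : X, Continuous (fun x => x * a))
    (hT : ¬ T2Space X) :
    ∃ h₀ : X, h₀ ≠ 1 ∧ ∀ {ι : Type v} (F : Finset ι) (B : ι → Set X),
      (∀ x, ∃ i ∈ F, x ∈ B i) → ∃ i ∈ F, ∃ v, v ∈ closure (B i) ∧
        ∀ a, v * (a * h₀ * a⁻¹) ∈ closure (B i) := by
  rw [t2Space_iff] at hT
  unfold Pairwise at hT
  push Not at hT
  obtain ⟨x, y, hxy, hsep⟩ := hT
  have h1 : ∀ V : Set X, IsOpen V → (1 : X) ∈ V → x⁻¹ * y ∈ closure V := by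
    intro V hV h1V
    rw [mem_closure_iff]
    intro W hW hyW
    have ho1 : IsOpen ((fun z => x⁻¹ * z) ⁻¹' V) := hV.preimage (hl x⁻¹)
    have ho2 : IsOpen ((fun z => x⁻¹ * z) ⁻¹' W) := hW.preimage (hl x⁻¹)
    have := hsep _ _ ho1 ho2 (by simpa using h1V) hyW
    rw [Set.not_disjoint_iff] at this
    obtain ⟨z, hz1, hz2⟩ := this
    exact ⟨x⁻¹ * z, hz2, hz1⟩
  have h2 : ∀ a : X, ∀ V : Set X, IsOpen V → (1 : X) ∈ V →
      a * (x⁻¹ * y) * a⁻¹ ∈ closure V := by
    intro a V hV h1V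
    have hc : Continuous (fun z => a * z * a⁻¹) := (hr a⁻¹).comp (hl a)
    have h3 := h1 _ (hV.preimage hc) (by simpa using h1V)
    have h4 : (fun z => a * z * a⁻¹) (x⁻¹ * y) ∈ closure V :=
      (closure_mono (image_preimage_subset _ V))
        (image_closure_subset_closure_image hc ⟨_, h3, rfl⟩)
    exact h4
  have h3 : ∀ a : X, ∀ V : Set X, IsOpen V → ∀ v ∈ V,
      v * (a * (x⁻¹ * y) * a⁻¹) ∈ closure V := by
    intro a V hV v hv
    have h4 := h2 a _ (hV.preimage (hl v)) (by simpa using hv)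
    exact (closure_mono (image_preimage_subset _ V))
        (image_closure_subset_closure_image (hl v) ⟨_, h4, rfl⟩)
  refine ⟨x⁻¹ * y, ?_, ?_⟩
  · intro h
    exact hxy (inv_mul_eq_one.mp h)
  · intro ι F B hB
    have : Nonempty X := ⟨1⟩
    obtain ⟨i, hi, v, hv⟩ := exists_interior_closure_nonempty F B hB
    refine ⟨i, hi, v, interior_subset hv, fun a => ?_⟩
    have h5 := h3 a _ isOpen_interior v hv
    have h6 : closure (interior (closure (B i))) ⊆ closure (B i) := by
      have := closure_mono (interior_subset (s := closure (B i)))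
      rwa [closure_closure] at this
    exact h6 h5

end Gen

section Main

variable {S : Type u} [Semigroup S] [TopologicalSpace S] {Γ : Type v} [Group Γ] {real : Γ → S}
  {I : Set S} {u : S}

/-- The group structure on `u I`. -/
noncomputable def IsMinimalLeftIdeal.group (hI : IsMinimalLeftIdeal I) (hu : u ∈ I)
    (huu : u * u = u) : Group (idealGroup I u) where
  mul x y := ⟨x.1 * y.1, idealGroup_mul_mem hI huu x.2 ((mem_idealGroup_iff hI huu).mp y.2).1⟩
  mul_assoc x y z := Subtype.ext (mul_assoc _ _ _)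
  one := ⟨u, idem_mem_idealGroup hI hu huu⟩
  one_mul x := Subtype.ext ((mem_idealGroup_iff hI huu).mp x.2).2
  mul_one x := Subtype.ext (hI.mul_idem hu huu ((mem_idealGroup_iff hI huu).mp x.2).1)
  inv x := ⟨(idealGroup_exists_inv hI hu huu x.2).choose,
    (idealGroup_exists_inv hI hu huu x.2).choose_spec.1⟩
  inv_mul_cancel x := Subtype.ext (idealGroup_exists_inv hI hu huu x.2).choose_spec.2.1

/-- Simultaneous approximation. -/
theorem Ellis.sim (E : Ellis real) (huu : u * u = u) {B : Set S} (hB : ∀ b ∈ B, u * b = b)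
    {K : Type*} (F : Finset K) (x : K → S)
    (hx : ∀ k ∈ F, x k ∈ circ real u B ∧ u * x k = x k)
    (U : K → Set S) (hU : ∀ k ∈ F, IsOpen (U k) ∧ x k ∈ U k) :
    ∀ W : Set S, IsOpen W → u ∈ W →
      ∃ g : Γ, real g ∈ W ∧ ∀ k ∈ F, ∃ b ∈ B, real g * b ∈ U k := by
  classical
  induction F using Finset.induction_on with
  | empty =>
    intro W hW huW
    obtain ⟨g, hg⟩ := E.dense.exists_mem_open hW ⟨u, huW⟩
    exact ⟨g, hg, fun k hk => absurd hk (Finset.notMem_empty k)⟩
  | insert k₀ F' hk₀ ih =>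
    intro W hW huW
    have hx0 := hx k₀ (Finset.mem_insert_self _ _)
    have hU0 := hU k₀ (Finset.mem_insert_self _ _)
    have hx' : ∀ k ∈ F', x k ∈ circ real u B ∧ u * x k = x k :=
      fun k hk => hx k (Finset.mem_insert_of_mem hk)
    have hU' : ∀ k ∈ F', IsOpen (U k) ∧ x k ∈ U k :=
      fun k hk => hU k (Finset.mem_insert_of_mem hk)
    -- first step
    have hW1 : IsOpen ((fun s => s * u) ⁻¹' W ∩ (fun s => s * x k₀) ⁻¹' U k₀) :=
      (hW.preimage (E.cont u)).inter (hU0.1.preimage (E.cont _))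
    have huW1 : u ∈ (fun s => s * u) ⁻¹' W ∩ (fun s => s * x k₀) ⁻¹' U k₀ := by
      refine ⟨?_, ?_⟩
      · show u * u ∈ W
        rw [huu]; exact huW
      · show u * x k₀ ∈ U k₀
        rw [hx0.2]; exact hU0.2
    obtain ⟨g, hg, hgb⟩ := ih hx' hU' _ hW1 huW1
    have hgb' : ∀ k : F', ∃ b ∈ B, real g * b ∈ U k := fun k => hgb k.1 k.2
    choose b hbB hbU using hgb'
    -- second step
    have hW2 : IsOpen ((fun s => real g * s) ⁻¹' W ∩
        ⋂ k : F', (fun s => real g * (s * b k)) ⁻¹' U k) := by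
      refine (hW.preimage (E.cont_real g)).inter ?_
      refine isOpen_iInter_of_finite fun k => ?_
      exact (hU' k.1 k.2).1.preimage ((E.cont_real g).comp (E.cont (b k)))
    have huW2 : u ∈ ((fun s => real g * s) ⁻¹' W ∩
        ⋂ k : F', (fun s => real g * (s * b k)) ⁻¹' U k) := by
      refine ⟨hg.1, ?_⟩
      rw [mem_iInter]
      intro k
      show real g * (u * b k) ∈ U k
      rw [hB _ (hbB k)]
      exact hbU k
    have hc := (mem_circ_iff real).mp hx0.1 ((fun s => real g * s) ⁻¹' U k₀)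
      ((hU0.1.preimage (E.cont_real g)).mem_nhds hg.2) _ (hW2.mem_nhds huW2)
    obtain ⟨g', hg', b₀, hb₀, hgb₀⟩ := hc
    refine ⟨g * g', ?_, ?_⟩
    · rw [E.real_mul]; exact hg'.1
    · intro k hk
      rcases Finset.mem_insert.mp hk with rfl | hk
      · refine ⟨b₀, hb₀, ?_⟩
        rw [E.real_mul, mul_assoc]
        exact hgb₀
      · refine ⟨b ⟨k, hk⟩, hbB _, ?_⟩
        rw [E.real_mul, mul_assoc]
        exact (mem_iInter.mp hg'.2) ⟨k, hk⟩

theorem Ellis.isClosed_tau_iff (E : Ellis real) (hI : IsMinimalLeftIdeal I) (huu : u * u = u)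
    (A : Set (idealGroup I u)) :
    @IsClosed _ (E.tau hI huu) A ↔ clSub real I u A = A := by
  rw [← @isOpen_compl_iff _ _ (E.tau hI huu)]
  show Aᶜᶜ ∈ {A | clSub real I u A = A} ↔ _
  rw [compl_compl]
  rfl

theorem Ellis.subset_clSub (E : Ellis real) (hI : IsMinimalLeftIdeal I) (huu : u * u = u)
    (A : Set (idealGroup I u)) : A ⊆ clSub real I u A := fun x hx =>
  E.subset_clTau hI huu (by rintro _ ⟨y, _, rfl⟩; exact y.2) ⟨x, hx, rfl⟩

theorem image_clSub (A : Set (idealGroup I u)) :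
    Subtype.val '' clSub real I u A = clTau real I u (Subtype.val '' A) := by
  ext x
  constructor
  · rintro ⟨y, hy, rfl⟩
    exact hy
  · intro hx
    exact ⟨⟨x, clTau_subset _ hx⟩, hx, rfl⟩

/-- Elements of the `τ`-closure of `A` lie in `u ∘ A`. -/
theorem Ellis.mem_circ_of_mem_closure (E : Ellis real) (hI : IsMinimalLeftIdeal I)
    (huu : u * u = u) {A : Set (idealGroup I u)} {x : idealGroup I u}
    (hx : x ∈ @closure _ (E.tau hI huu) A) :
    (x : S) ∈ circ real u (Subtype.val '' A) := by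
  have h1 : @IsClosed _ (E.tau hI huu) (clSub real I u A) := by
    rw [E.isClosed_tau_iff hI huu]
    refine Subset.antisymm ?_ (E.subset_clSub hI huu _)
    intro y hy
    have hy' : (y : S) ∈ clTau real I u (Subtype.val '' clSub real I u A) := hy
    rw [image_clSub] at hy'
    exact E.clTau_clTau huu _ hy'
  have h2 : @closure _ (E.tau hI huu) A ⊆ clSub real I u A :=
    @closure_minimal _ (E.tau hI huu) _ _ (E.subset_clSub hI huu A) h1
  exact (h2 hx).2

/-- Left translations of `u I` are `τ`-continuous. -/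
theorem Ellis.tau_continuous_left (E : Ellis real) (hI : IsMinimalLeftIdeal I) (hu : u ∈ I)
    (huu : u * u = u) (a : idealGroup I u) (f : idealGroup I u → idealGroup I u)
    (hf : ∀ x, (f x : S) = a * x) :
    @Continuous _ _ (E.tau hI huu) (E.tau hI huu) f := by
  rw [@continuous_iff_isClosed _ _ (E.tau hI huu) (E.tau hI huu)]
  intro C hC
  rw [E.isClosed_tau_iff hI huu] at hC ⊢
  refine Subset.antisymm ?_ (E.subset_clSub hI huu _)
  rintro x ⟨_, hx⟩
  obtain ⟨b, hb, hba, hab⟩ := idealGroup_exists_inv hI hu huu a.2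
  have hP : Subtype.val '' (f ⁻¹' C) ⊆ circ real b (Subtype.val '' C) := by
    rintro _ ⟨y, hy, rfl⟩
    have h1 : b * (f y : S) = y := by
      rw [hf, ← mul_assoc, hba]
      exact ((mem_idealGroup_iff hI huu).mp y.2).2
    have h2 := E.mul_mem_circ b (A := Subtype.val '' C) ⟨f y, hy, rfl⟩
    rwa [h1] at h2
  have h1 : (x : S) ∈ circ real b (Subtype.val '' C) := by
    have := E.circ_circ u b _ (circ_mono real hP hx)
    rwa [((mem_idealGroup_iff hI huu).mp hb).2] at this
  have h2 : (f x : S) ∈ circ real u (Subtype.val '' C) := by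
    have := E.circ_circ a b _ (E.mul_mem_circ a h1)
    rwa [hab, ← hf] at this
  have h3 : f x ∈ clSub real I u C := ⟨(f x).2, h2⟩
  rw [hC] at h3
  exact h3

/-- Right translations of `u I` are `τ`-continuous. -/
theorem Ellis.tau_continuous_right (E : Ellis real) (hI : IsMinimalLeftIdeal I)
    (huu : u * u = u) (a : idealGroup I u) (f : idealGroup I u → idealGroup I u)
    (hf : ∀ x, (f x : S) = x * a) :
    @Continuous _ _ (E.tau hI huu) (E.tau hI huu) f := by
  rw [@continuous_iff_isClosed _ _ (E.tau hI huu) (E.tau hI huu)]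
  intro C hC
  rw [E.isClosed_tau_iff hI huu] at hC ⊢
  refine Subset.antisymm ?_ (E.subset_clSub hI huu _)
  rintro x ⟨_, hx⟩
  have h1 := E.circ_mul_right u (a : S) hx
  have h2 : (fun s => s * (a : S)) '' (Subtype.val '' (f ⁻¹' C)) ⊆ Subtype.val '' C := by
    rintro _ ⟨_, ⟨y, hy, rfl⟩, rfl⟩
    exact ⟨f y, hy, hf y⟩
  have h3 : f x ∈ clSub real I u C := by
    refine ⟨(f x).2, ?_⟩
    have := circ_mono real h2 h1
    rwa [← hf] at this
  rw [hC] at h3
  exact h3

/-- Version of `exists_bad` for the ideal group. -/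
theorem Ellis.exists_bad (E : Ellis real) (hI : IsMinimalLeftIdeal I) (hu : u ∈ I)
    (huu : u * u = u) (hT : ¬ @T2Space _ (E.tau hI huu)) :
    ∃ h₀ ∈ idealGroup I u, h₀ ≠ u ∧ ∀ {ι : Type v} (F : Finset ι) (B : ι → Set S),
      (∀ i ∈ F, B i ⊆ idealGroup I u) →
      (∀ x ∈ idealGroup I u, ∃ i ∈ F, x ∈ B i) → ∃ i ∈ F, ∃ v ∈ idealGroup I u,
        v ∈ circ real u (B i) ∧
        ∀ a ∈ idealGroup I u, ∀ a' ∈ idealGroup I u, a' * a = u →
          v * (a * (h₀ * a')) ∈ circ real u (B i) := by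
  let _ := hI.group hu huu
  obtain ⟨h₀, hh₀, hbad⟩ := @Tau.exists_bad.{v} _ _ (E.tau hI huu)
    (fun a => E.tau_continuous_left hI hu huu a _ (fun x => rfl))
    (fun a => E.tau_continuous_right hI huu a _ (fun x => rfl)) hT
  refine ⟨h₀, h₀.2, fun h => hh₀ (Subtype.ext h), ?_⟩
  intro ι F B hBs hB
  obtain ⟨i, hi, v, hv, hva⟩ := hbad F (fun i => Subtype.val ⁻¹' B i)
    (fun x => hB x.1 x.2)
  have himg : ∀ A : Set (idealGroup I u), ∀ T : Set S, A = Subtype.val ⁻¹' T →
      Subtype.val '' A ⊆ T := by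
    rintro A T rfl
    exact image_preimage_subset _ _
  refine ⟨i, hi, v, v.2, circ_mono real (himg _ _ rfl) (E.mem_circ_of_mem_closure hI huu hv), ?_⟩
  intro a ha a' ha' haa'
  have h1 := hva ⟨a, ha⟩
  have h2 : (⟨a, ha⟩ : idealGroup I u)⁻¹ = ⟨a', ha'⟩ := by
    rw [inv_eq_iff_mul_eq_one]
    have h3 : (⟨a', ha'⟩ : idealGroup I u) * ⟨a, ha⟩ = 1 := Subtype.ext haa'
    exact mul_eq_one_comm.mp h3
  rw [h2] at h1
  have h4 := circ_mono real (himg _ _ rfl) (E.mem_circ_of_mem_closure hI huu h1)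
  have h5 : (((v * (⟨a, ha⟩ * h₀ * ⟨a', ha'⟩) : idealGroup I u)) : S)
      = v * (a * (h₀ * a')) := by
    show (v : S) * ((a * h₀) * a') = v * (a * (h₀ * a'))
    rw [mul_assoc a]
  rwa [h5] at h4

/-- `2^n` points of `I` of the form `c * a_e`, `a_e ∈ u I`, which are distinguished by at most `n`
translates of the sets `C j`. -/
def HasTree (real : Γ → S) (I : Set S) (u : S) {J : Type*} (C : J → Set S) (n : ℕ) : Prop :=
  ∃ s : Finset Γ, s.card ≤ n ∧ ∃ (X : Type) (_ : Fintype X), Fintype.card X = 2 ^ n ∧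
    ∃ c ∈ I, ∃ a : X → S, (∀ e, a e ∈ idealGroup I u) ∧
      ∀ e e', e ≠ e' → ∃ g ∈ s, ∃ j,
        ¬ (real g * (c * a e) ∈ C j ↔ real g * (c * a e') ∈ C j)

theorem hasTree_zero (hI : IsMinimalLeftIdeal I) (hu : u ∈ I) (huu : u * u = u) {J : Type*}
    (C : J → Set S) : HasTree real I u C 0 := by
  refine ⟨∅, le_refl _, Unit, inferInstance, by simp, u, hu, fun _ => u,
    fun _ => idem_mem_idealGroup hI hu huu, ?_⟩
  intro e e' h
  exact absurd (Subsingleton.elim e e') h

theorem IsMinimalLeftIdeal.isCompact [CompactSpace S] (E : Ellis real)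
    (hI : IsMinimalLeftIdeal I) : IsCompact I := by
  obtain ⟨x, hx⟩ := hI.1.1
  have h1 : I = (fun s => s * x) '' univ := by
    refine Subset.antisymm ?_ ?_
    · intro y hy
      obtain ⟨s, _, hs⟩ := hI.exists_mul_eq hx hy
      exact ⟨s, mem_univ _, hs⟩
    · rintro _ ⟨s, _, rfl⟩
      exact hI.mul_mem s hx
  rw [h1]
  exact isCompact_univ.image (E.cont x)

theorem isOpen_iff_mem {C : Set S} (hC : IsClopen C) {f : S → S} (hf : Continuous f) (P : Prop) :
    IsOpen {x | f x ∈ C ↔ P} := by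
  by_cases hP : P
  · have : {x | f x ∈ C ↔ P} = f ⁻¹' C := by
      ext x; simp [hP]
    rw [this]
    exact hC.isOpen.preimage hf
  · have : {x | f x ∈ C ↔ P} = f ⁻¹' Cᶜ := by
      ext x; simp [hP]
    rw [this]
    exact hC.compl.isOpen.preimage hf

theorem Ellis.hasTree_succ [CompactSpace S] (E : Ellis real) (hI : IsMinimalLeftIdeal I)
    (hu : u ∈ I) (huu : u * u = u) {J : Type*} [Finite J] (C : J → Set S)
    (hC : ∀ j, IsClopen (C j)) {h₀ : S} (hh₀ : h₀ ∈ idealGroup I u)
    (hbad : ∀ (F : Finset Γ) (B : Γ → Set S),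
      (∀ i ∈ F, B i ⊆ idealGroup I u) →
      (∀ x ∈ idealGroup I u, ∃ i ∈ F, x ∈ B i) → ∃ i ∈ F, ∃ v ∈ idealGroup I u,
        v ∈ circ real u (B i) ∧
        ∀ a ∈ idealGroup I u, ∀ a' ∈ idealGroup I u, a' * a = u →
          v * (a * (h₀ * a')) ∈ circ real u (B i))
    (hsep : ∀ p ∈ I, ∃ j, ¬ (p ∈ C j ↔ p * h₀ ∈ C j)) (n : ℕ)
    (hn : HasTree real I u C n) : HasTree real I u C (n + 1) := by
  classical
  obtain ⟨s, hs, X, _, hX, c, hc, a, ha, hdist⟩ := hn
  have haI : ∀ e, a e ∈ I := fun e => ((mem_idealGroup_iff hI huu).mp (ha e)).1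
  have hcaI : ∀ e, c * a e ∈ I := fun e => hI.mul_mem c (haI e)
  -- the open set `U`
  set U : Set S := ⋂ e : X, ⋂ g : s, ⋂ j : J,
    {x | real g.1 * (x * (c * a e)) ∈ C j ↔ real g.1 * (c * a e) ∈ C j} with hU
  have hUo : IsOpen U := by
    refine isOpen_iInter_of_finite fun e => isOpen_iInter_of_finite fun g =>
      isOpen_iInter_of_finite fun j => ?_
    exact isOpen_iff_mem (hC j) ((E.cont_real g.1).comp (E.cont (c * a e))) _
  have hUmem : ∀ x, x ∈ U ↔ ∀ e, ∀ g ∈ s, ∀ j,
      (real g * (x * (c * a e)) ∈ C j ↔ real g * (c * a e) ∈ C j) := by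
    intro x
    simp only [hU, mem_iInter, Subtype.forall, mem_ofPred_eq]
  obtain ⟨x₀, hx₀I, hx₀⟩ : ∃ x ∈ I, x ∈ U := by
    obtain ⟨x, hx, hxc⟩ := hI.exists_mul_eq hc hc
    refine ⟨x, hx, (hUmem x).mpr ?_⟩
    intro e g _ j
    rw [← mul_assoc x, hxc]
  -- translates of `U` cover `I`
  have hcov : ∀ y ∈ I, ∃ g : Γ, real g * y ∈ U := by
    intro y hy
    obtain ⟨s₀, _, hs₀⟩ := hI.exists_mul_eq hy hx₀I
    obtain ⟨g, hg⟩ := E.dense.exists_mem_open (hUo.preimage (E.cont y))
      ⟨s₀, by show s₀ * y ∈ U; rw [hs₀]; exact hx₀⟩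
    exact ⟨g, hg⟩
  obtain ⟨F, hF⟩ := (hI.isCompact E).elim_finite_subcover (fun g : Γ => (fun y => real g * y) ⁻¹' U)
    (fun g => hUo.preimage (E.cont_real g)) (by
      intro y hy
      obtain ⟨g, hg⟩ := hcov y hy
      exact mem_iUnion.mpr ⟨g, hg⟩)
  obtain ⟨g₀, _, v, hv, hvc, hva⟩ := hbad F (fun g => {b ∈ idealGroup I u | real g * b ∈ U})
    (fun g _ => fun b hb => hb.1) (by
      intro x hx
      have h1 := hF ((mem_idealGroup_iff hI huu).mp hx).1
      obtain ⟨g, hg, hgx⟩ := mem_iUnion₂.mp h1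
      exact ⟨g, hg, hx, hgx⟩)
  have hvI := ((mem_idealGroup_iff hI huu).mp hv)
  have hh₀I := ((mem_idealGroup_iff hI huu).mp hh₀)
  -- the group elements `ã e = u * (c * a e)` and their inverses
  have hta : ∀ e, u * (c * a e) ∈ idealGroup I u := fun e => ⟨_, hcaI e, rfl⟩
  have hinv : ∀ e, ∃ b ∈ idealGroup I u, b * (u * (c * a e)) = u := fun e => by
    obtain ⟨b, hb, h1, _⟩ := idealGroup_exists_inv hI hu huu (hta e)
    exact ⟨b, hb, h1⟩
  choose ai hai hai1 using hinv
  -- targets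
  set x : X × Bool → S := fun k =>
    if k.2 then v * ((u * (c * a k.1)) * (h₀ * ai k.1)) else v with hx
  have hxk : ∀ k, x k ∈ circ real u {b ∈ idealGroup I u | real g₀ * b ∈ U} ∧ u * x k = x k := by
    rintro ⟨e, i⟩
    cases i with
    | false =>
      refine ⟨hvc, ?_⟩
      show u * v = v
      exact hvI.2
    | true =>
      refine ⟨hva _ (hta e) _ (hai e) (hai1 e), ?_⟩
      show u * (v * ((u * (c * a e)) * (h₀ * ai e))) = v * ((u * (c * a e)) * (h₀ * ai e))
      rw [← mul_assoc u v, hvI.2]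
  have hx0 : ∀ e, x (e, false) * (c * a e) = v * (c * a e) := fun e => rfl
  have hx1 : ∀ e, x (e, true) * (c * a e) = v * (c * a e) * h₀ := by
    intro e
    show v * ((u * (c * a e)) * (h₀ * ai e)) * (c * a e) = v * (c * a e) * h₀
    have h1 : ai e * (c * a e) = u := by
      have h2 := ((mem_idealGroup_iff hI huu).mp (hai e))
      have h3 : ai e * u = ai e := hI.mul_idem hu huu h2.1
      rw [← h3, mul_assoc]
      exact hai1 e
    have h4 : h₀ * u = h₀ := hI.mul_idem hu huu hh₀I.1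
    have h5 : v * u = v := hI.mul_idem hu huu hvI.1
    calc v * ((u * (c * a e)) * (h₀ * ai e)) * (c * a e)
        = (v * u) * (c * a e) * (h₀ * (ai e * (c * a e))) := by
          simp only [mul_assoc]
      _ = v * (c * a e) * h₀ := by rw [h1, h4, h5]
  -- simultaneous approximation
  obtain ⟨t, _, ht⟩ := E.sim huu (B := {b ∈ idealGroup I u | real g₀ * b ∈ U})
    (fun b hb => ((mem_idealGroup_iff hI huu).mp hb.1).2) (Finset.univ : Finset (X × Bool)) x
    (fun k _ => hxk k)
    (fun k => ⋂ j : J, {y | y * (c * a k.1) ∈ C j ↔ x k * (c * a k.1) ∈ C j})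
    (fun k _ => ⟨isOpen_iInter_of_finite fun j => isOpen_iff_mem (hC j) (E.cont _) _,
      mem_iInter.mpr fun j => Iff.rfl⟩) univ isOpen_univ (mem_univ _)
  have ht' : ∀ k : X × Bool, ∃ b, (b ∈ idealGroup I u ∧ real g₀ * b ∈ U) ∧
      ∀ j, (real t * b * (c * a k.1) ∈ C j ↔ x k * (c * a k.1) ∈ C j) := by
    intro k
    obtain ⟨b, hb, hb'⟩ := ht k (Finset.mem_univ _)
    exact ⟨b, hb, fun j => (mem_iInter.mp hb') j⟩
  choose b hb hbj using ht'
  have hub : ∀ k, u * b k = b k := fun k => ((mem_idealGroup_iff hI huu).mp (hb k).1).2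
  refine ⟨insert (t * g₀⁻¹) s, (Finset.card_insert_le _ _).trans (Nat.succ_le_succ hs),
    X × Bool, inferInstance, ?_, real g₀ * u, hI.mul_mem _ hu, fun k => b k * (c * a k.1), ?_, ?_⟩
  · rw [Fintype.card_prod, hX, Fintype.card_bool, pow_succ]
  · intro k
    exact idealGroup_mul_mem hI huu (hb k).1 (hcaI k.1)
  · have hz : ∀ k, (real g₀ * u) * (b k * (c * a k.1)) = (real g₀ * b k) * (c * a k.1) := by
      intro k
      calc (real g₀ * u) * (b k * (c * a k.1)) = real g₀ * ((u * b k) * (c * a k.1)) := by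
            simp only [mul_assoc]
        _ = (real g₀ * b k) * (c * a k.1) := by rw [hub, mul_assoc]
    have hz' : ∀ k, real (t * g₀⁻¹) * ((real g₀ * b k) * (c * a k.1))
        = real t * b k * (c * a k.1) := by
      intro k
      have h1 : ∀ y, real g₀⁻¹ * (real g₀ * y) = y := by
        intro y
        rw [← mul_assoc, ← E.real_mul, inv_mul_cancel, E.real_one_mul]
      rw [E.real_mul, mul_assoc (real g₀), mul_assoc (real t) (real g₀⁻¹), h1, ← mul_assoc]
    have hlast : ∀ e, ∃ j, ¬ (real t * b (e, false) * (c * a e) ∈ C j ↔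
        real t * b (e, true) * (c * a e) ∈ C j) := by
      intro e
      obtain ⟨j, hj⟩ := hsep (v * (c * a e)) (hI.mul_mem v (hcaI e))
      refine ⟨j, ?_⟩
      rw [hbj (e, false) j, hbj (e, true) j]
      show ¬ (x (e, false) * (c * a e) ∈ C j ↔ x (e, true) * (c * a e) ∈ C j)
      rw [hx0, hx1]
      exact hj
    rintro ⟨e, i⟩ ⟨e', i'⟩ hne
    rw [hz, hz]
    by_cases hee : e = e'
    · subst hee
      obtain ⟨j, hj⟩ := hlast e
      refine ⟨t * g₀⁻¹, Finset.mem_insert_self _ _, j, ?_⟩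
      rw [hz', hz']
      cases i <;> cases i'
      · exact absurd rfl hne
      · exact hj
      · exact fun h => hj h.symm
      · exact absurd rfl hne
    · obtain ⟨g, hg, j, hj⟩ := hdist e e' hee
      refine ⟨g, Finset.mem_insert_of_mem hg, j, ?_⟩
      have h1 := (hUmem _).mp (hb (e, i)).2 e g hg j
      have h2 := (hUmem _).mp (hb (e', i')).2 e' g hg j
      rw [h1, h2]
      exact hj

/-- A set of `Γ`-elements is shattered by `C` if every subset of it is cut out by some point. -/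
def Shat (real : Γ → S) (C : Set S) (t : Finset Γ) : Prop :=
  ∀ t' ⊆ t, ∃ z : S, ∀ g ∈ t, (real g * z ∈ C ↔ g ∈ t')

/-- The translates of `C` have finite VC-dimension. -/
def FinVC (real : Γ → S) (C : Set S) : Prop :=
  ∃ d : ℕ, ∀ t : Finset Γ, d < t.card → ¬ Shat real C t

theorem card_small_subsets {Γ : Type*} [DecidableEq Γ] (s : Finset Γ) (d : ℕ) :
    (s.powerset.filter (fun t => t.card ≤ d)).card ≤ (d + 1) * (s.card + 1) ^ d := by
  have h1 : s.powerset.filter (fun t => t.card ≤ d) ⊆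
      (Finset.range (d + 1)).biUnion (fun k => Finset.powersetCard k s) := by
    intro t ht
    rw [Finset.mem_filter, Finset.mem_powerset] at ht
    rw [Finset.mem_biUnion]
    exact ⟨t.card, Finset.mem_range.mpr (Nat.lt_succ_of_le ht.2),
      Finset.mem_powersetCard.mpr ⟨ht.1, rfl⟩⟩
  calc _ ≤ _ := Finset.card_le_card h1
    _ ≤ ∑ k ∈ Finset.range (d + 1), (Finset.powersetCard k s).card := Finset.card_biUnion_le
    _ ≤ ∑ _k ∈ Finset.range (d + 1), (s.card + 1) ^ d := by
        refine Finset.sum_le_sum fun k hk => ?_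
        rw [Finset.card_powersetCard]
        have hk' : k ≤ d := Nat.lt_succ_iff.mp (Finset.mem_range.mp hk)
        calc s.card.choose k ≤ s.card ^ k := Nat.choose_le_pow _ _
          _ ≤ (s.card + 1) ^ k := Nat.pow_le_pow_left (Nat.le_succ _) _
          _ ≤ (s.card + 1) ^ d := Nat.pow_le_pow_right (Nat.succ_pos _) hk'
    _ = (d + 1) * (s.card + 1) ^ d := by
        rw [Finset.sum_const, Finset.card_range, smul_eq_mul]

/-- Sauer-Shelah bound for the number of patterns of the translates of one set `C`. -/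
theorem card_patterns_le [DecidableEq Γ] {C : Set S} {d : ℕ}
    (hd : ∀ t : Finset Γ, d < t.card → ¬ Shat real C t) (s : Finset Γ)
    (𝒜 : Finset (Finset Γ))
    (h𝒜 : ∀ t ∈ 𝒜, t ⊆ s ∧ ∃ z : S, ∀ g ∈ s, (real g * z ∈ C ↔ g ∈ t)) :
    𝒜.card ≤ (d + 1) * (s.card + 1) ^ d := by
  refine (Finset.card_le_card_shatterer 𝒜).trans (le_trans (Finset.card_le_card ?_)
    (card_small_subsets s d))
  intro t ht
  rw [Finset.mem_shatterer] at ht
  have hts : t ⊆ s := by
    obtain ⟨t₁, ht₁, h1⟩ := ht (Finset.Subset.refl t)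
    have h2 := (h𝒜 t₁ ht₁).1
    intro g hg
    have h3 : g ∈ t ∩ t₁ := by rw [h1]; exact hg
    exact h2 (Finset.mem_inter.mp h3).2
  rw [Finset.mem_filter, Finset.mem_powerset]
  refine ⟨hts, ?_⟩
  by_contra hcard
  push Not at hcard
  refine hd t hcard ?_
  intro t' ht'
  obtain ⟨t₁, ht₁, h1⟩ := ht ht'
  obtain ⟨_, z, hz⟩ := h𝒜 t₁ ht₁
  refine ⟨z, fun g hg => ?_⟩
  rw [hz g (hts hg), ← h1, Finset.mem_inter]
  exact ⟨fun h => ⟨hg, h⟩, fun h => h.2⟩

theorem exists_not_hasTree {J : Type*} [Finite J] (C : J → Set S)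
    (hvc : ∀ j, FinVC real (C j)) : ∃ n, ¬ HasTree real I u C n := by
  classical
  have := Fintype.ofFinite J
  choose d hd using hvc
  by_contra hcon
  push Not at hcon
  -- the polynomial bound
  have hbound : ∀ n, 2 ^ n ≤ (∏ j, (d j + 1)) * (n + 1) ^ (∑ j, d j) := by
    intro n
    obtain ⟨s, hs, X, _, hX, c, hc, a, ha, hdist⟩ := hcon n
    rw [← hX]
    -- pattern map
    let 𝒜 : J → Finset (Finset Γ) := fun j =>
      Finset.univ.image (fun e : X => s.filter (fun g => real g * (c * a e) ∈ C j))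
    have h𝒜 : ∀ j, ∀ t ∈ 𝒜 j, t ⊆ s ∧ ∃ z : S, ∀ g ∈ s, (real g * z ∈ C j ↔ g ∈ t) := by
      intro j t ht
      rw [Finset.mem_image] at ht
      obtain ⟨e, _, rfl⟩ := ht
      refine ⟨Finset.filter_subset _ _, c * a e, fun g hg => ?_⟩
      rw [Finset.mem_filter]
      exact ⟨fun h => ⟨hg, h⟩, fun h => h.2⟩
    let F : X → (∀ j : J, 𝒜 j) := fun e j =>
      ⟨s.filter (fun g => real g * (c * a e) ∈ C j),
        Finset.mem_image.mpr ⟨e, Finset.mem_univ _, rfl⟩⟩
    have hF : Function.Injective F := by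
      intro e e' h
      by_contra hne
      obtain ⟨g, hg, j, hj⟩ := hdist e e' hne
      have h1 := congrArg Subtype.val (congrFun h j)
      have h2 : s.filter (fun g => real g * (c * a e) ∈ C j)
          = s.filter (fun g => real g * (c * a e') ∈ C j) := h1
      apply hj
      have h3 := Finset.ext_iff.mp h2 g
      simpa [hg] using h3
    calc Fintype.card X ≤ Fintype.card (∀ j : J, 𝒜 j) := Fintype.card_le_of_injective F hF
      _ = ∏ j, (𝒜 j).card := by
          rw [Fintype.card_pi]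
          exact Finset.prod_congr rfl fun j _ => Fintype.card_coe _
      _ ≤ ∏ j, ((d j + 1) * (n + 1) ^ d j) := by
          refine Finset.prod_le_prod' fun j _ => ?_
          refine (card_patterns_le (hd j) s (𝒜 j) (h𝒜 j)).trans ?_
          exact Nat.mul_le_mul_left _ (Nat.pow_le_pow_left (Nat.succ_le_succ hs) _)
      _ = (∏ j, (d j + 1)) * (n + 1) ^ (∑ j, d j) := by
          rw [Finset.prod_mul_distrib, Finset.prod_pow_eq_pow_sum]
  -- contradiction with exponential growth
  set K := ∏ j, (d j + 1) with hK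
  set D := ∑ j, d j with hD
  have hKpos : 0 < K := Finset.prod_pos fun j _ => Nat.succ_pos _
  have hlim := tendsto_pow_const_div_const_pow_of_one_lt D (r := 2) one_lt_two
  have hlim' := hlim.comp (tendsto_add_atTop_nat 1)
  have hev := hlim'.eventually (gt_mem_nhds (show (0 : ℝ) < 1 / (2 * K) by positivity))
  obtain ⟨n, hn⟩ := hev.exists
  have h1 : (2 : ℝ) ^ n ≤ K * ((n : ℝ) + 1) ^ D := by exact_mod_cast hbound n
  simp only [Function.comp_apply, Nat.cast_add, Nat.cast_one] at hn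
  rw [div_lt_div_iff₀ (by positivity) (by positivity), one_mul, pow_succ] at hn
  nlinarith

/-- **Main abstract theorem.** -/
theorem Ellis.tau_t2Space [CompactSpace S] [T2Space S] (E : Ellis real)
    (hI : IsMinimalLeftIdeal I) (hu : u ∈ I) (huu : u * u = u) (𝓑 : Set (Set S))
    (hclopen : ∀ C ∈ 𝓑, IsClopen C) (hsep : ∀ x y : S, x ≠ y → ∃ C ∈ 𝓑, x ∈ C ∧ y ∉ C)
    (hvc : ∀ C ∈ 𝓑, FinVC real C) : @T2Space _ (E.tau hI huu) := by
  by_contra hT
  obtain ⟨h₀, hh₀, hne, hbad⟩ := E.exists_bad hI hu huu hT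
  have hh₀I := (mem_idealGroup_iff hI huu).mp hh₀
  have hpne : ∀ p ∈ I, p ≠ p * h₀ := by
    intro p hp h
    obtain ⟨s, _, hs⟩ := hI.exists_mul_eq hp hu
    apply hne
    calc h₀ = u * h₀ := hh₀I.2.symm
      _ = s * p * h₀ := by rw [hs]
      _ = s * (p * h₀) := mul_assoc _ _ _
      _ = s * p := by rw [← h]
      _ = u := hs
  -- finitely many members of the basis separate
  obtain ⟨F, hF⟩ := (hI.isCompact E).elim_finite_subcover
    (fun C : 𝓑 => C.1 ∩ (fun p => p * h₀) ⁻¹' C.1ᶜ)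
    (fun C => (hclopen C.1 C.2).isOpen.inter
      ((hclopen C.1 C.2).compl.isOpen.preimage (E.cont h₀))) (by
      intro p hp
      obtain ⟨C, hC, h1, h2⟩ := hsep p (p * h₀) (hpne p hp)
      exact mem_iUnion.mpr ⟨⟨C, hC⟩, h1, h2⟩)
  let C : F → Set S := fun C => C.1.1
  have hC : ∀ j, IsClopen (C j) := fun j => hclopen _ j.1.2
  have hsep' : ∀ p ∈ I, ∃ j, ¬ (p ∈ C j ↔ p * h₀ ∈ C j) := by
    intro p hp
    obtain ⟨c, hc, h1, h2⟩ := mem_iUnion₂.mp (hF hp)
    exact ⟨⟨c, hc⟩, fun h => h2 (h.mp h1)⟩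
  obtain ⟨n, hn⟩ := exists_not_hasTree (I := I) (u := u) C (fun j => hvc _ j.1.2)
  apply hn
  clear hn
  induction n with
  | zero => exact hasTree_zero hI hu huu C
  | succ n ih => exact E.hasTree_succ hI hu huu C hC hh₀ hbad hsep' n ih

end Main

end Pool.Agent.Lib_helper84.Tau
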