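import Pool.Agent.Lib_helper84.NIPSem
import Pool.Agent.Lib_helper84.TauMain

/-!
# The semigroup `S_G^{fs}(N, M)`: basic properties
-/

set_option linter.unusedSectionVars false

namespace Pool.Agent.Lib_helper84.NIP

open FirstOrder FirstOrder.Language Cardinal Set Topology Filter
open Pool.Agent.Lib_helper84.Tau

universe u v w

variable {L : FirstOrder.Language.{u, v}} {M N : Type w} [L.Structure M] [L.Structure N]
  {e : M ↪ₑ[L] N} {G : DefGroup L M} {hsat : IsSaturated L (Order.succ #M) N}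

namespace SGfs

/-- the set of formulas of a type -/
def fm (p : SGfs e G hsat) : Set (L.Formula (N ⊕ Fin G.arity)) := FSType.formulas p

@[ext]
theorem ext {p q : SGfs e G hsat} (h : p.fm = q.fm) : p = q := FSType.ext h

/-- The basic clopen set `[φ]`. -/
def bas (φ : L.Formula (N ⊕ Fin G.arity)) : Set (SGfs e G hsat) := {p | φ ∈ p.fm}

theorem mem_bas {φ : L.Formula (N ⊕ Fin G.arity)} {p : SGfs e G hsat} :
    p ∈ bas φ ↔ φ ∈ p.fm := Iff.rfl

theorem isOpen_bas (φ : L.Formula (N ⊕ Fin G.arity)) :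
    IsOpen (bas φ : Set (SGfs e G hsat)) :=
  TopologicalSpace.isOpen_generateFrom_of_mem ⟨φ, rfl⟩

theorem bas_not (φ : L.Formula (N ⊕ Fin G.arity)) :
    (bas (∼φ) : Set (SGfs e G hsat)) = (bas φ)ᶜ := by
  ext p
  exact FSType.not_mem_iff p

theorem isClopen_bas (φ : L.Formula (N ⊕ Fin G.arity)) :
    IsClopen (bas φ : Set (SGfs e G hsat)) := by
  refine ⟨⟨?_⟩, isOpen_bas φ⟩
  rw [← bas_not]
  exact isOpen_bas _

theorem bas_inf (φ ψ : L.Formula (N ⊕ Fin G.arity)) :
    (bas (φ ⊓ ψ) : Set (SGfs e G hsat)) = bas φ ∩ bas ψ := by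
  ext p
  exact FSType.inf_mem_iff p

theorem isTopologicalBasis :
    TopologicalSpace.IsTopologicalBasis (Set.range (bas : _ → Set (SGfs e G hsat))) where
  exists_subset_inter := by
    rintro _ ⟨φ, rfl⟩ _ ⟨ψ, rfl⟩ x hx
    exact ⟨_, ⟨φ ⊓ ψ, rfl⟩, by rwa [bas_inf], by rw [bas_inf]⟩
  sUnion_eq := by
    rw [← Set.univ_subset_iff]
    intro p _
    exact ⟨_, ⟨_, rfl⟩, FSType.dom_mem p⟩
  eq_generateFrom := rfl

theorem exists_bas {U : Set (SGfs e G hsat)} (hU : IsOpen U) {p : SGfs e G hsat} (hp : p ∈ U) :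
    ∃ φ, p ∈ (bas φ : Set (SGfs e G hsat)) ∧ bas φ ⊆ U := by
  obtain ⟨_, ⟨φ, rfl⟩, h1, h2⟩ := isTopologicalBasis.exists_subset_of_mem_open hp hU
  exact ⟨φ, h1, h2⟩

theorem exists_sep {p q : SGfs e G hsat} (h : p ≠ q) :
    ∃ φ, p ∈ (bas φ : Set (SGfs e G hsat)) ∧ q ∉ (bas φ : Set (SGfs e G hsat)) := by
  by_contra hcon
  push Not at hcon
  apply h
  ext φ
  refine ⟨fun h1 => hcon φ h1, fun h1 => ?_⟩
  by_contra h2
  have h3 := hcon (∼φ) ((FSType.not_mem_iff p).mpr h2)
  exact ((FSType.not_mem_iff q).mp h3) h1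

instance : T2Space (SGfs e G hsat) := by
  refine ⟨fun p q h => ?_⟩
  obtain ⟨φ, h1, h2⟩ := exists_sep h
  exact ⟨bas φ, (bas φ)ᶜ, isOpen_bas φ, (isClopen_bas φ).compl.isOpen, h1, h2,
    disjoint_compl_right⟩

instance : CompactSpace (SGfs e G hsat) := by
  classical
  constructor
  rw [isCompact_iff_ultrafilter_le_nhds]
  intro 𝒰 _
  let p : FSType e G :=
    { formulas := {φ | (bas φ : Set (SGfs e G hsat)) ∈ 𝒰}
      complete := by
        intro φ
        have := Ultrafilter.mem_or_compl_mem 𝒰 (bas φ : Set (SGfs e G hsat))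
        rw [← bas_not] at this
        exact this
      finSat := by
        intro F hF
        have h1 : (⋂ φ ∈ F, (bas φ : Set (SGfs e G hsat))) ∈ (𝒰 : Filter (SGfs e G hsat)) := by
          rw [Filter.biInter_finset_mem]
          exact fun φ hφ => hF hφ
        obtain ⟨q, hq⟩ := 𝒰.nonempty_of_mem h1
        refine FSType.finSat q F ?_
        intro φ hφ
        rw [mem_iInter₂] at hq
        exact hq φ hφ
      dom_mem := by
        refine Filter.mem_of_superset Filter.univ_mem ?_
        intro q _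
        exact FSType.dom_mem q }
  let p' : SGfs e G hsat := p
  refine ⟨p', mem_univ _, ?_⟩
  rw [(isTopologicalBasis.nhds_hasBasis (a := p')).ge_iff]
  rintro _ ⟨⟨φ, rfl⟩, hp⟩
  exact hp

variable [Nonempty M]

theorem isProd_mul (p q : SGfs e G hsat) : IsProd (e := e) (G := G) p q (p * q) :=
  (existsUnique_isProd hsat (e := e) (G := G) p q).choose_spec.1

/-- The characteristic property of the multiplication: `IsProd p q r` if and only if
`r = p * q`. -/
theorem isProd_iff (p q r : SGfs e G hsat) : IsProd (e := e) (G := G) p q r ↔ r = p * q := by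
  constructor
  · intro h
    exact IsProd.unique hsat h (isProd_mul p q)
  · rintro rfl
    exact isProd_mul p q

/-- Formulas in `p * q`. -/
theorem mem_mul {p q : SGfs e G hsat} {φ θ : L.Formula (N ⊕ Fin G.arity)}
    (hθ : ∀ g : G.Pts, θ.Realize (Sum.elim id (e ∘ g.1)) ↔ actF e g.1 φ ∈ q.fm) :
    φ ∈ (p * q).fm ↔ θ ∈ p.fm :=
  (isProd_mul p q).mem_iff hθ

theorem mem_realized {g : G.Pts} {φ : L.Formula (N ⊕ Fin G.arity)} :
    φ ∈ (realized g : SGfs e G hsat).fm ↔ φ.Realize (Sum.elim id (e ∘ g.1)) := Iff.rfl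

/-- Formulas in `g * q`. -/
theorem mem_realized_mul {g : G.Pts} {q : SGfs e G hsat} {φ : L.Formula (N ⊕ Fin G.arity)} :
    φ ∈ (realized g * q).fm ↔ actF e g.1 φ ∈ q.fm := by
  obtain ⟨θ, hθ⟩ := exists_def hsat (q : FSType e G) φ
  rw [mem_mul hθ, mem_realized]
  exact hθ g

theorem realized_mul (g h : G.Pts) :
    (realized (g * h) : SGfs e G hsat) = realized g * realized h := by
  ext φ
  rw [mem_realized_mul, mem_realized, mem_realized, realize_actF_pt]

theorem mem_congr {r : SGfs e G hsat} {φ ψ : L.Formula (N ⊕ Fin G.arity)}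
    (h : ∀ g : G.Pts, φ.Realize (Sum.elim id (e ∘ g.1)) ↔ ψ.Realize (Sum.elim id (e ∘ g.1))) :
    φ ∈ r.fm ↔ ψ ∈ r.fm := FSType.mem_congr r h

theorem realized_one_mul (r : SGfs e G hsat) : realized (1 : G.Pts) * r = r := by
  ext φ
  rw [mem_realized_mul]
  refine mem_congr fun g => ?_
  rw [realize_actF_pt, one_mul]

theorem realized_mul_mul (g h : G.Pts) (r : SGfs e G hsat) :
    realized (g * h) * r = realized g * (realized h * r) := by
  ext φ
  rw [mem_realized_mul, mem_realized_mul, mem_realized_mul]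
  refine mem_congr fun x => ?_
  rw [realize_actF_pt, realize_actF_pt, realize_actF_pt, mul_assoc]

theorem continuous_mul_right (q : SGfs e G hsat) : Continuous (fun p => p * q) := by
  rw [isTopologicalBasis.continuous_iff]
  rintro _ ⟨φ, rfl⟩
  obtain ⟨θ, hθ⟩ := exists_def hsat (q : FSType e G) φ
  have : (fun p => p * q) ⁻¹' (bas φ : Set (SGfs e G hsat)) = bas θ := by
    ext p
    exact mem_mul hθ
  rw [this]
  exact isOpen_bas θ

theorem continuous_realized_mul (g : G.Pts) :
    Continuous (fun q : SGfs e G hsat => realized g * q) := by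
  rw [isTopologicalBasis.continuous_iff]
  rintro _ ⟨φ, rfl⟩
  have : (fun q => realized g * q) ⁻¹' (bas φ : Set (SGfs e G hsat)) = bas (actF e g.1 φ) := by
    ext q
    exact mem_realized_mul
  rw [this]
  exact isOpen_bas _

theorem denseRange_realized : DenseRange (realized : G.Pts → SGfs e G hsat) := by
  classical
  rw [DenseRange, dense_iff_inter_open]
  rintro U hU ⟨p, hp⟩
  obtain ⟨φ, hφ, hφU⟩ := exists_bas hU hp
  obtain ⟨g, hg⟩ := FSType.exists_pt p {φ} (by
    intro ψ hψ
    rw [Finset.coe_singleton, mem_singleton_iff] at hψ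
    subst hψ
    exact hφ)
  exact ⟨realized g, hφU (hg φ (Finset.mem_singleton_self _)), mem_range_self g⟩

theorem mul_assoc' (p q r : SGfs e G hsat) : p * q * r = p * (q * r) := by
  have h1 : ∀ g h : G.Pts, (realized g : SGfs e G hsat) * realized h * r
      = realized g * (realized h * r) := by
    intro g h
    rw [← realized_mul, realized_mul_mul]
  have h2 : ∀ (g : G.Pts) (q : SGfs e G hsat), realized g * q * r = realized g * (q * r) := by
    intro g q
    have hc1 : Continuous (fun q : SGfs e G hsat => realized g * q * r) :=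
      (continuous_mul_right r).comp (continuous_realized_mul g)
    have hc2 : Continuous (fun q : SGfs e G hsat => realized g * (q * r)) :=
      (continuous_realized_mul g).comp (continuous_mul_right r)
    exact congrFun (denseRange_realized.equalizer hc1 hc2 (funext fun h => h1 g h)) q
  have hc1 : Continuous (fun p : SGfs e G hsat => p * q * r) :=
    (continuous_mul_right r).comp (continuous_mul_right q)
  have hc2 : Continuous (fun p : SGfs e G hsat => p * (q * r)) := continuous_mul_right (q * r)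
  exact congrFun (denseRange_realized.equalizer hc1 hc2 (funext fun g => h2 g q)) p

/-- `S_G^{fs}(N, M)` is a semigroup. -/
@[instance_reducible]
noncomputable def semigroup : Semigroup (SGfs e G hsat) :=
  { SGfs.mul with mul_assoc := mul_assoc' }

attribute [local instance] semigroup

theorem ellis : Ellis (realized : G.Pts → SGfs e G hsat) where
  cont := continuous_mul_right
  real_mul := realized_mul
  real_one_mul := realized_one_mul
  cont_real := continuous_realized_mul
  dense := denseRange_realized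

/-- In an NIP theory the translates of each basic clopen set have finite VC-dimension. -/
theorem finVC {T : L.Theory} (hNIP : IsNIP.{u, v, w} T) [M ⊨ T]
    (φ : L.Formula (N ⊕ Fin G.arity)) :
    FinVC (realized : G.Pts → SGfs e G hsat) (bas φ) := by
  classical
  have hN : Nonempty N := ⟨e (Classical.arbitrary M)⟩
  by_contra hcon
  unfold FinVC at hcon
  push Not at hcon
  choose t ht hshat using hcon
  -- enumerate `d + 1` distinct elements of `t d`
  have henum : ∀ d : ℕ, ∃ a : ℕ → G.Pts, (∀ i ≤ d, a i ∈ t d) ∧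
      ∀ i ≤ d, ∀ i' ≤ d, a i = a i' → i = i' := by
    intro d
    let ε := (t d).equivFin.symm
    have hpos : 0 < (t d).card := lt_of_le_of_lt (Nat.zero_le _) (ht d)
    refine ⟨fun i => if h : i < (t d).card then (ε ⟨i, h⟩).1 else (ε ⟨0, hpos⟩).1, ?_, ?_⟩
    · intro i hi
      have h : i < (t d).card := lt_of_le_of_lt hi (ht d)
      simp only [h, dif_pos]
      exact (ε ⟨i, h⟩).2
    · intro i hi i' hi' hii
      have h : i < (t d).card := lt_of_le_of_lt hi (ht d)
      have h' : i' < (t d).card := lt_of_le_of_lt hi' (ht d)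
      simp only [h, h', dif_pos] at hii
      have := ε.injective (Subtype.ext hii)
      exact congrArg Fin.val this
  choose a hat hainj using henum
  -- points of `G(M)` cutting out the subsets
  have hcut : ∀ (d : ℕ) (s : Set ℕ), ∃ h : G.Pts, ∀ i ≤ d,
      (φ.Realize (Sum.elim id (e ∘ (a d i * h : G.Pts).1)) ↔ i ∈ s) := by
    intro d s
    let t' : Finset G.Pts := (t d).filter (fun g => ∃ i ≤ d, i ∈ s ∧ g = a d i)
    obtain ⟨z, hz⟩ := hshat d t' (Finset.filter_subset _ _)
    have hopen : IsOpen (⋂ g : t d, {z : SGfs e G hsat |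
        realized g.1 * z ∈ (bas φ : Set (SGfs e G hsat)) ↔ g.1 ∈ t'}) := by
      refine isOpen_iInter_of_finite fun g => ?_
      exact isOpen_iff_mem (isClopen_bas φ) (continuous_realized_mul g.1) _
    obtain ⟨h, hh⟩ := denseRange_realized.exists_mem_open hopen
      ⟨z, mem_iInter.mpr fun g => hz g.1 g.2⟩
    refine ⟨h, fun i hi => ?_⟩
    have h1 := mem_iInter.mp hh ⟨a d i, hat d i hi⟩
    have h2 : realized (a d i) * realized h ∈ (bas φ : Set (SGfs e G hsat)) ↔ a d i ∈ t' := h1
    rw [← realized_mul, mem_bas, mem_realized] at h2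
    rw [h2, Finset.mem_filter]
    constructor
    · rintro ⟨_, i', hi', his, hii⟩
      rwa [hainj d i hi i' hi' hii]
    · intro his
      exact ⟨hat d i hi, i, hi, his, rfl⟩
  choose h hh using hcut
  -- pass to a formula in finitely many variables
  obtain ⟨n, f, θ₀, hθ₀⟩ := exists_finitary.{u, v, w} (mulF G φ)
  let 𝒰 : Ultrafilter ℕ := Filter.hyperfilter ℕ
  let N' : Type w := (𝒰 : Filter ℕ).Product (fun _ : ℕ => N)
  have hNT : N ⊨ T := (e.theory_model_iff T).mp inferInstance
  have hN'T : N' ⊨ T := ((diag 𝒰 N).theory_model_iff T).mp hNT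
  have hN' : Nonempty N' := ⟨diag (L := L) 𝒰 N (Classical.arbitrary N)⟩
  refine hNIP G.arity n θ₀ N' ⟨fun i l => ((fun d => e ((a d i).1 l) : ℕ → N) : N'),
    fun s l => ((fun d => (Sum.elim id (e ∘ (h d s).1) : N ⊕ Fin G.arity → N) (f l) : ℕ → N) : N'),
    fun i s => ?_⟩
  have h1 := realize_ultra 𝒰 N θ₀ (fun d => Sum.elim (e ∘ (a d i).1)
    ((Sum.elim id (e ∘ (h d s).1) : N ⊕ Fin G.arity → N) ∘ f))
  have h2 : (Sum.elim (fun l => ((fun d => e ((a d i).1 l) : ℕ → N) : N'))
      (fun l => ((fun d => (Sum.elim id (e ∘ (h d s).1) : N ⊕ Fin G.arity → N) (f l) :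
        ℕ → N) : N')) : Fin G.arity ⊕ Fin n → N') =
      (fun x => ((fun d => (Sum.elim (e ∘ (a d i).1)
        ((Sum.elim id (e ∘ (h d s).1) : N ⊕ Fin G.arity → N) ∘ f) :
          Fin G.arity ⊕ Fin n → N) x : ℕ → N) : N')) := by
    funext x
    rcases x with x | x <;> rfl
  rw [h2]
  refine Iff.trans h1 ?_
  have h3 : ∀ᶠ d in (𝒰 : Filter ℕ), (θ₀.Realize (Sum.elim (e ∘ (a d i).1)
    ((Sum.elim id (e ∘ (h d s).1) : N ⊕ Fin G.arity → N) ∘ f)) ↔ i ∈ s) := by
    have h4 : ∀ᶠ d in (𝒰 : Filter ℕ), i ≤ d := by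
      have : ∀ᶠ d in (atTop : Filter ℕ), i ≤ d := eventually_ge_atTop i
      rw [← Nat.cofinite_eq_atTop] at this
      exact Filter.hyperfilter_le_cofinite this
    filter_upwards [h4] with d hd
    rw [hθ₀, realize_mulF_of_mu e φ id (dom_pt e (a d i)) (dom_pt e (h d s)) (dom_pt e _)
      (mu_pt e (a d i) (h d s))]
    exact hh d s i hd
  rw [Filter.eventually_congr h3, Filter.eventually_const]

end SGfs

end Pool.Agent.Lib_helper84.NIP
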