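import Pool.Agent.Lib_helper84.NIPProd

/-!
# Existence and uniqueness of the product of types, continued
-/

set_option linter.unusedSectionVars false

namespace Pool.Agent.Lib_helper84.NIP

open FirstOrder FirstOrder.Language Cardinal Set

universe u v w

variable {L : FirstOrder.Language.{u, v}} {M N : Type w} [L.Structure M] [L.Structure N]

/-- The coheir condition in the definition of the product: `tp(a/N, b)` is finitely satisfiable
in `M`. -/
def Coheir (e : M ↪ₑ[L] N) {k : ℕ} {N' : Type w} [L.Structure N'] (j : N ↪ₑ[L] N')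
    (a b : Fin k → N') : Prop :=
  ∀ θ : L.Formula ((N ⊕ Fin k) ⊕ Fin k), θ.Realize (Sum.elim (Sum.elim j b) a) →
    ∃ m : Fin k → M, θ.Realize (Sum.elim (Sum.elim j b) (j ∘ e ∘ m))

section Exist

variable {e : M ↪ₑ[L] N} {G : DefGroup L M}

/-- Every pair of types is realised in the required way. -/
theorem exists_realization [Nonempty M] (p q : FSType e G) :
    ∃ (N' : Type w) (_ : L.Structure N') (j : N ↪ₑ[L] N') (a b : Fin G.arity → N'),
      tp j a = p.formulas ∧ tp j b = q.formulas ∧ Coheir e j a b := by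
  have hN : Nonempty N := ⟨e (Classical.arbitrary M)⟩
  obtain ⟨𝒰, h𝒰⟩ := p.exists_ultrafilter
  obtain ⟨𝒱, h𝒱⟩ := q.exists_ultrafilter
  let N₁ : Type w := (𝒱 : Filter (Fin G.arity → M)).Product (fun _ : (Fin G.arity → M) => N)
  let j₁ : N ↪ₑ[L] N₁ := diag 𝒱 N
  let b₁ : Fin G.arity → N₁ := fun i => ((fun m => e (m i) : (Fin G.arity → M) → N) : N₁)
  have hN₁ : Nonempty N₁ := ⟨j₁ (Classical.arbitrary N)⟩
  let N₂ : Type w := (𝒰 : Filter (Fin G.arity → M)).Product (fun _ : (Fin G.arity → M) => N₁)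
  let j₂ : N₁ ↪ₑ[L] N₂ := diag 𝒰 N₁
  let a₂ : Fin G.arity → N₂ :=
    fun i => ((fun m => j₁ (e (m i)) : (Fin G.arity → M) → N₁) : N₂)
  -- realisation of formulas at `b₁`
  have hb₁ : ∀ φ : L.Formula (N ⊕ Fin G.arity), φ.Realize (Sum.elim j₁ b₁) ↔
      ∀ᶠ m in (𝒱 : Filter (Fin G.arity → M)), φ.Realize (Sum.elim id (e ∘ m)) := by
    intro φ
    have h := realize_ultra 𝒱 N φ (fun m => Sum.elim id (e ∘ m))
    have h1 : (Sum.elim j₁ b₁ : N ⊕ Fin G.arity → N₁) =
        (fun i => ((fun m => (Sum.elim id (e ∘ m) : N ⊕ Fin G.arity → N) i :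
          (Fin G.arity → M) → N) : N₁)) := by
      funext i
      rcases i with i | i <;> rfl
    rw [h1]
    exact h
  -- realisation of formulas at `a₂`, with parameters in `N₁`
  have ha₂ : ∀ {β : Type w} (θ : L.Formula (β ⊕ Fin G.arity)) (w : β → N₁),
      θ.Realize (Sum.elim (j₂ ∘ w) a₂) ↔
      ∀ᶠ m in (𝒰 : Filter (Fin G.arity → M)), θ.Realize (Sum.elim w (j₁ ∘ e ∘ m)) := by
    intro β θ w
    have h := realize_ultra 𝒰 N₁ θ (fun m => Sum.elim w (j₁ ∘ e ∘ m))
    have h1 : (Sum.elim (j₂ ∘ w) a₂ : β ⊕ Fin G.arity → N₂) =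
        (fun i => ((fun m => (Sum.elim w (j₁ ∘ e ∘ m) : β ⊕ Fin G.arity → N₁) i :
          (Fin G.arity → M) → N₁) : N₂)) := by
      funext i
      rcases i with i | i <;> rfl
    rw [h1]
    exact h
  refine ⟨N₂, inferInstance, j₂.comp j₁, a₂, j₂ ∘ b₁, ?_, ?_, ?_⟩
  · ext φ
    rw [h𝒰 φ]
    have h1 := ha₂ φ (fun n => j₁ n)
    have h2 : φ ∈ tp (j₂.comp j₁) a₂ ↔ φ.Realize (Sum.elim (j₂ ∘ fun n => j₁ n) a₂) := Iff.rfl
    rw [h2, h1]
    refine Filter.eventually_congr (Filter.Eventually.of_forall fun m => ?_)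
    have h3 := j₁.map_formula φ (Sum.elim id (e ∘ m))
    rw [Sum.comp_elim] at h3
    exact h3
  · ext φ
    rw [h𝒱 φ, ← hb₁ φ]
    have h3 := j₂.map_formula φ (Sum.elim j₁ b₁)
    rw [Sum.comp_elim] at h3
    exact h3
  · intro θ hθ
    have h1 : (Sum.elim (Sum.elim (j₂.comp j₁) (j₂ ∘ b₁)) a₂ : _ → N₂) =
        Sum.elim (j₂ ∘ Sum.elim j₁ b₁) a₂ := by
      rw [Sum.comp_elim]
      rfl
    rw [h1, ha₂] at hθ
    obtain ⟨m, hm⟩ := hθ.exists
    refine ⟨m, ?_⟩
    have h3 := (j₂.map_formula θ _).mpr hm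
    rw [Sum.comp_elim, Sum.comp_elim] at h3
    exact h3

theorem dom_of_tp {N' : Type w} [L.Structure N'] {j : N ↪ₑ[L] N'} {a : Fin G.arity → N'}
    {p : FSType e G} (h : tp j a = p.formulas) : G.dom.Realize a := by
  have h1 : G.dom.relabel Sum.inr ∈ tp j a := by rw [h]; exact p.dom_mem
  have h2 : (G.dom.relabel Sum.inr).Realize (Sum.elim j a) := h1
  rwa [Formula.realize_relabel, Sum.elim_comp_inr] at h2

theorem exists_isProd [Nonempty M] (p q : FSType e G) : ∃ r, IsProd p q r := by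
  classical
  obtain ⟨N', _, j, a, b, ha, hb, hab⟩ := exists_realization p q
  have hda := dom_of_tp ha
  have hdb := dom_of_tp hb
  obtain ⟨c, hc, hmu⟩ := exists_mu (j.comp e) hda hdb
  refine ⟨⟨tp j c, ?_, ?_, ?_⟩, N', inferInstance, j, a, b, c, ha, hb, hab, hc, hmu, rfl⟩
  · intro φ
    rcases Classical.em (φ.Realize (Sum.elim j c)) with h | h
    · exact Or.inl h
    · right
      show Formula.Realize (∼φ) (Sum.elim j c)
      rw [Formula.realize_not]
      exact h
  · intro F hF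
    -- the conjunction of `F`
    let Φ : L.Formula (N ⊕ Fin G.arity) := Formula.iInf (fun φ : F => φ.1)
    have hΦ : ∀ {B : Type w} [L.Structure B] (f : N ⊕ Fin G.arity → B),
        Φ.Realize f ↔ ∀ φ ∈ F, φ.Realize f := by
      intro B _ f
      simp only [Φ, Formula.realize_iInf, Subtype.forall]
    have h1 : Φ.Realize (Sum.elim j c) := (hΦ _).mpr (fun φ hφ => hF hφ)
    -- move `a` to a point of `M`
    have h2 : (mulF G Φ ⊓ dF G Sum.inr).Realize (Sum.elim (Sum.elim j b) a) := by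
      rw [Formula.realize_inf, realize_dF]
      exact ⟨(realize_mulF_of_mu (j.comp e) Φ j hda hdb hc hmu).mpr h1, hda⟩
    obtain ⟨m, hm⟩ := hab _ h2
    rw [Formula.realize_inf, realize_dF] at hm
    have hmd : G.dom.Realize m := ((j.comp e).map_formula G.dom m).mp hm.2
    have h3 : actF e m Φ ∈ q.formulas := by
      rw [← hb]
      show (actF e m Φ).Realize (Sum.elim j b)
      rw [realize_actF]
      exact hm.1
    obtain ⟨h, hh⟩ := q.exists_pt {actF e m Φ} (by simpa using h3)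
    have h4 := hh _ (Finset.mem_singleton_self _)
    rw [realize_actF_pt e ⟨m, hmd⟩ h Φ, hΦ] at h4
    exact ⟨_, h4⟩
  · show (G.dom.relabel Sum.inr).Realize (Sum.elim j c)
    rw [Formula.realize_relabel, Sum.elim_comp_inr]
    exact hc

end Exist

/-! ### Externally definable sets: consequences of saturation -/

section Sat

variable {e : M ↪ₑ[L] N}

/-- Every subset of `M^k` defined with parameters from an elementary extension of `N` is defined
with parameters from `N`. -/
theorem exists_internal [Nonempty M] (hsat : IsSaturated L (Order.succ #M) N) {N' : Type w} [L.Structure N']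
    (j : N ↪ₑ[L] N') {β : Type w} {k : ℕ} (θ : L.Formula (β ⊕ Fin k)) (w : β → N') :
    ∃ θ' : L.Formula (N ⊕ Fin k), ∀ m : Fin k → M,
      θ.Realize (Sum.elim w (j ∘ e ∘ m)) ↔ θ'.Realize (Sum.elim id (e ∘ m)) := by
  classical
  -- the set of parameters
  let A : Set N := Set.range e
  have hA : #A < Order.succ #M := Order.lt_succ_of_le Cardinal.mk_range_le
  -- the finitely many variables in `β` occurring in `θ`
  let s := BoundedFormula.freeVarFinset θ
  let X : Type w := {b : β // Sum.inl b ∈ s}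
  have hX : Finite X := by
    refine Finite.of_injective (fun b : X => (⟨Sum.inl b.1, b.2⟩ : s)) ?_
    intro b b' h
    have h1 := congrArg Subtype.val h
    exact Subtype.ext (Sum.inl_injective h1)
  obtain ⟨n, ⟨ε⟩⟩ := Finite.exists_equiv_fin X
  let wn : Fin n → N' := fun i => w (ε.symm i).1
  -- the type of `wn` over `A`
  let Φ : Set (L.Formula (A ⊕ Fin n)) := {χ | χ.Realize (Sum.elim (j ∘ Subtype.val) wn)}
  have hΦ : ∃ x : Fin n → N, ∀ φ ∈ Φ, φ.Realize (Sum.elim Subtype.val x) := by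
    refine hsat A hA n Φ ?_
    intro F hF
    have h1 := transfer_ex j (Formula.iInf (fun φ : F => φ.1)) (Subtype.val : A → N)
      ⟨wn, by
        rw [Formula.realize_iInf]
        rintro ⟨φ, hφ⟩
        exact hF hφ⟩
    obtain ⟨x, hx⟩ := h1
    refine ⟨x, fun φ hφ => ?_⟩
    rw [Formula.realize_iInf] at hx
    exact hx ⟨φ, hφ⟩
  obtain ⟨x, hx⟩ := hΦ
  have hx' : ∀ χ : L.Formula (A ⊕ Fin n), χ.Realize (Sum.elim (j ∘ Subtype.val) wn) ↔
      χ.Realize (Sum.elim Subtype.val x) := by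
    intro χ
    refine ⟨fun h => hx χ h, fun h => ?_⟩
    by_contra hcon
    have h1 := hx (∼χ) (by
      show Formula.Realize (∼χ) _
      rw [Formula.realize_not]
      exact hcon)
    rw [Formula.realize_not] at h1
    exact h1 h
  -- the new formula
  let f : s → N ⊕ Fin k := fun a => match a with
    | ⟨Sum.inl b, hb⟩ => Sum.inl (x (ε ⟨b, hb⟩))
    | ⟨Sum.inr i, _⟩ => Sum.inr i
  refine ⟨BoundedFormula.restrictFreeVar θ f, fun m => ?_⟩
  -- the formula over `A`
  let g : s → A ⊕ Fin n := fun a => match a with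
    | ⟨Sum.inl b, hb⟩ => Sum.inr (ε ⟨b, hb⟩)
    | ⟨Sum.inr i, _⟩ => Sum.inl ⟨e (m i), mem_range_self _⟩
  have d : β → N := fun _ => e (Classical.arbitrary M)
  have h1 := hx' (BoundedFormula.restrictFreeVar θ g)
  have h2 : Formula.Realize (BoundedFormula.restrictFreeVar θ g)
      (Sum.elim (j ∘ Subtype.val) wn) ↔ θ.Realize (Sum.elim w (j ∘ e ∘ m)) := by
    refine BoundedFormula.realize_restrictFreeVar _ ?_
    rintro ⟨a | a, ha⟩
    · show w (ε.symm (ε ⟨a, ha⟩)).1 = w a
      rw [Equiv.symm_apply_apply]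
    · rfl
  rw [← h2, h1]
  -- compare the two restrictions in `N`
  let v' : β ⊕ Fin k → N := Sum.elim
    (fun b => if hb : Sum.inl b ∈ s then x (ε ⟨b, hb⟩) else d b) (e ∘ m)
  have h3 : Formula.Realize (BoundedFormula.restrictFreeVar θ g)
      (Sum.elim Subtype.val x) ↔ θ.Realize v' := by
    refine BoundedFormula.realize_restrictFreeVar _ ?_
    rintro ⟨a | a, ha⟩
    · show x (ε ⟨a, ha⟩) = if hb : Sum.inl a ∈ s then x (ε ⟨a, hb⟩) else d a
      rw [dif_pos ha]
    · rfl
  have h4 : Formula.Realize (BoundedFormula.restrictFreeVar θ f)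
      (Sum.elim id (e ∘ m)) ↔ θ.Realize v' := by
    refine BoundedFormula.realize_restrictFreeVar _ ?_
    rintro ⟨a | a, ha⟩
    · show x (ε ⟨a, ha⟩) = if hb : Sum.inl a ∈ s then x (ε ⟨a, hb⟩) else d a
      rw [dif_pos ha]
    · rfl
  rw [h3, h4]

variable {G : DefGroup L M}

/-- `{g ∈ G(M) : φ(g x) ∈ q}` is defined by a formula over `N`. -/
theorem exists_def [Nonempty M] (hsat : IsSaturated L (Order.succ #M) N) (q : FSType e G)
    (φ : L.Formula (N ⊕ Fin G.arity)) : ∃ θ : L.Formula (N ⊕ Fin G.arity), ∀ g : G.Pts,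
      θ.Realize (Sum.elim id (e ∘ g.1)) ↔ actF e g.1 φ ∈ q.formulas := by
  obtain ⟨N', _, j, a, b, ha, hb, hab⟩ := exists_realization q q
  obtain ⟨θ, hθ⟩ := exists_internal hsat j (mulF G φ) (Sum.elim j b)
  refine ⟨θ, fun g => ?_⟩
  rw [← hθ g.1, ← hb]
  exact (realize_actF e g.1 φ j b).symm

/-- The formulas in a product. -/
theorem IsProd.mem_iff {p q r : FSType e G} (h : IsProd p q r)
    {φ θ : L.Formula (N ⊕ Fin G.arity)}
    (hθ : ∀ g : G.Pts, θ.Realize (Sum.elim id (e ∘ g.1)) ↔ actF e g.1 φ ∈ q.formulas) :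
    φ ∈ r.formulas ↔ θ ∈ p.formulas := by
  obtain ⟨N', _, j, a, b, c, ha, hb, hab, hc, hmu, hr⟩ := h
  have hda := dom_of_tp ha
  have hdb := dom_of_tp hb
  have h1 : φ ∈ r.formulas ↔ (mulF G φ).Realize (Sum.elim (Sum.elim j b) a) := by
    rw [hr, realize_mulF_of_mu (j.comp e) φ j hda hdb hc hmu]
    exact Iff.rfl
  have h2 : θ ∈ p.formulas ↔
      (θ.relabel (Sum.elim (Sum.inl ∘ Sum.inl) Sum.inr) :
        L.Formula ((N ⊕ Fin G.arity) ⊕ Fin G.arity)).Realize (Sum.elim (Sum.elim j b) a) := by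
    rw [← ha, Formula.realize_relabel, Sum.comp_elim]
    exact Iff.rfl
  rw [h1, h2]
  by_contra hcon
  have h3 : (∼((mulF G φ).iff (θ.relabel (Sum.elim (Sum.inl ∘ Sum.inl) Sum.inr))) ⊓
      dF G Sum.inr : L.Formula ((N ⊕ Fin G.arity) ⊕ Fin G.arity)).Realize
      (Sum.elim (Sum.elim j b) a) := by
    rw [Formula.realize_inf, Formula.realize_not, Formula.realize_iff, realize_dF]
    exact ⟨hcon, hda⟩
  obtain ⟨m, hm⟩ := hab _ h3
  rw [Formula.realize_inf, Formula.realize_not, Formula.realize_iff, realize_dF] at hm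
  obtain ⟨hm1, hm2⟩ := hm
  have hmd : G.dom.Realize m := ((j.comp e).map_formula G.dom m).mp hm2
  apply hm1
  have h4 := hθ ⟨m, hmd⟩
  have h5 : (mulF G φ).Realize (Sum.elim (Sum.elim j b) (j ∘ e ∘ m)) ↔
      actF e m φ ∈ q.formulas := by
    rw [← hb]
    exact (realize_actF e m φ j b).symm
  rw [h5, ← h4, Formula.realize_relabel, Sum.comp_elim]
  have h6 := j.map_formula θ (Sum.elim id (e ∘ m))
  rw [Sum.comp_elim] at h6
  exact h6.symm

theorem IsProd.unique [Nonempty M] (hsat : IsSaturated L (Order.succ #M) N) {p q r r' : FSType e G}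
    (h : IsProd p q r) (h' : IsProd p q r') : r = r' := by
  ext φ
  obtain ⟨θ, hθ⟩ := exists_def hsat q φ
  rw [h.mem_iff hθ, h'.mem_iff hθ]

/-- **The product of types is well defined.** -/
theorem existsUnique_isProd [Nonempty M] (hsat : IsSaturated L (Order.succ #M) N)
    (p q : FSType e G) : ∃! r, IsProd p q r := by
  obtain ⟨r, hr⟩ := exists_isProd p q
  exact ⟨r, hr, fun r' hr' => hr'.unique hsat hr⟩

end Sat

end Pool.Agent.Lib_helper84.NIP
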