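import Pool.Agent.Lib_helper84.NIPDefs

/-!
# Existence and uniqueness of the product of types
-/

set_option linter.unusedSectionVars false

namespace Pool.Agent.Lib_helper84.NIP

open FirstOrder FirstOrder.Language Cardinal Set

universe u v w

variable {L : FirstOrder.Language.{u, v}}

/-! ### Transfer along elementary embeddings -/

theorem transfer {A B : Type w} [L.Structure A] [L.Structure B] (j : A ↪ₑ[L] B) {α β : Type*}
    [Finite β] (ψ : L.Formula (α ⊕ β)) (p : α → A)
    (h : ∀ v : β → A, ψ.Realize (Sum.elim p v)) (v : β → B) :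
    ψ.Realize (Sum.elim (j ∘ p) v) := by
  have h1 : (ψ.iAlls β).Realize p := by
    rw [Formula.realize_iAlls]
    exact h
  have h2 := (j.map_formula (ψ.iAlls β) p).mpr h1
  rw [Formula.realize_iAlls] at h2
  exact h2 v

theorem transfer_ex {A B : Type w} [L.Structure A] [L.Structure B] (j : A ↪ₑ[L] B) {α β : Type*}
    [Finite β] (ψ : L.Formula (α ⊕ β)) (p : α → A)
    (h : ∃ v : β → B, ψ.Realize (Sum.elim (j ∘ p) v)) :
    ∃ v : β → A, ψ.Realize (Sum.elim p v) := by
  have h1 : (ψ.iExs β).Realize (j ∘ p) := by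
    rw [Formula.realize_iExs]
    exact h
  have h2 := (j.map_formula (ψ.iExs β) p).mp h1
  rwa [Formula.realize_iExs] at h2

variable {M N : Type w} [L.Structure M] [L.Structure N]

/-! ### The group law in elementary extensions -/

section GroupLaw

variable (G : DefGroup L M)

/-- the product relation in a structure -/
def Mu (B : Type w) [L.Structure B] (a b c : Fin G.arity → B) : Prop :=
  G.mulGraph.Realize (Sum.elim a (Sum.elim b c))

/-- the formula `x ∈ G` -/
def dF {α : Type*} (x : Fin G.arity → α) : L.Formula α := G.dom.relabel x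

/-- the formula `x y = z` -/
def mF {α : Type*} (x y z : Fin G.arity → α) : L.Formula α :=
  G.mulGraph.relabel (Sum.elim x (Sum.elim y z))

variable {G}

theorem realize_dF {α : Type*} {B : Type w} [L.Structure B] (x : Fin G.arity → α) (v : α → B) :
    (dF G x).Realize v ↔ G.dom.Realize (v ∘ x) := Formula.realize_relabel

theorem realize_mF {α : Type*} {B : Type w} [L.Structure B] (x y z : Fin G.arity → α)
    (v : α → B) : (mF G x y z).Realize v ↔ Mu G B (v ∘ x) (v ∘ y) (v ∘ z) := by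
  rw [mF, Formula.realize_relabel, Mu, Sum.comp_elim, Sum.comp_elim]

theorem mu_iff {a b c : Fin G.arity → M} (ha : G.dom.Realize a) (hb : G.dom.Realize b)
    (hc : G.dom.Realize c) :
    Mu G M a b c ↔ (⟨a, ha⟩ : G.Pts) * ⟨b, hb⟩ = ⟨c, hc⟩ :=
  G.mul_iff ⟨a, ha⟩ ⟨b, hb⟩ ⟨c, hc⟩

variable {B : Type w} [L.Structure B] (j : M ↪ₑ[L] B)

include j

theorem exists_mu {a b : Fin G.arity → B} (ha : G.dom.Realize a) (hb : G.dom.Realize b) :
    ∃ c, G.dom.Realize c ∧ Mu G B a b c := by
  let ψ : L.Formula (Empty ⊕ (Fin G.arity ⊕ Fin G.arity)) :=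
    (dF G (Sum.inr ∘ Sum.inl)).imp ((dF G (Sum.inr ∘ Sum.inr)).imp
        (Formula.iExs (Fin G.arity)
          ((dF G Sum.inr) ⊓
            (mF G (Sum.inl ∘ Sum.inr ∘ Sum.inl) (Sum.inl ∘ Sum.inr ∘ Sum.inr) Sum.inr))))
  have key : ∀ (C : Type w) [L.Structure C] (p : Empty → C) (x y : Fin G.arity → C),
      ψ.Realize (Sum.elim p (Sum.elim x y)) ↔ (G.dom.Realize x → G.dom.Realize y →
        ∃ z, G.dom.Realize z ∧ Mu G C x y z) := by
    intro C _ p x y
    simp only [ψ, Formula.realize_imp, Formula.realize_iExs, Formula.realize_inf, realize_dF,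
      realize_mF]
    exact Iff.rfl
  have h := transfer j ψ Empty.elim (fun v => by
    have := (key M Empty.elim (v ∘ Sum.inl) (v ∘ Sum.inr)).mpr (fun hx hy =>
      ⟨((⟨_, hx⟩ : G.Pts) * ⟨_, hy⟩ : G.Pts).1, ((⟨_, hx⟩ : G.Pts) * ⟨_, hy⟩ : G.Pts).2,
        (mu_iff hx hy _).mpr rfl⟩)
    rwa [Sum.elim_comp_inl_inr] at this) (Sum.elim a b)
  exact (key B _ a b).mp h ha hb

theorem mu_unique {a b c c' : Fin G.arity → B} (ha : G.dom.Realize a) (hb : G.dom.Realize b)
    (hc : G.dom.Realize c) (hc' : G.dom.Realize c') (h : Mu G B a b c) (h' : Mu G B a b c') :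
    c = c' := by
  funext i
  let ψ : L.Formula (Empty ⊕ ((Fin G.arity ⊕ Fin G.arity) ⊕ (Fin G.arity ⊕ Fin G.arity))) :=
    (dF G (Sum.inr ∘ Sum.inl ∘ Sum.inl)).imp ((dF G (Sum.inr ∘ Sum.inl ∘ Sum.inr)).imp
      ((dF G (Sum.inr ∘ Sum.inr ∘ Sum.inl)).imp ((dF G (Sum.inr ∘ Sum.inr ∘ Sum.inr)).imp
        ((mF G (Sum.inr ∘ Sum.inl ∘ Sum.inl) (Sum.inr ∘ Sum.inl ∘ Sum.inr)
            (Sum.inr ∘ Sum.inr ∘ Sum.inl)).imp
          ((mF G (Sum.inr ∘ Sum.inl ∘ Sum.inl) (Sum.inr ∘ Sum.inl ∘ Sum.inr)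
            (Sum.inr ∘ Sum.inr ∘ Sum.inr)).imp
            ((Term.var (Sum.inr (Sum.inr (Sum.inl i)))).equal
              (Term.var (Sum.inr (Sum.inr (Sum.inr i))))))))))
  have key : ∀ (C : Type w) [L.Structure C] (p : Empty → C) (x y z z' : Fin G.arity → C),
      ψ.Realize (Sum.elim p (Sum.elim (Sum.elim x y) (Sum.elim z z'))) ↔
      (G.dom.Realize x → G.dom.Realize y → G.dom.Realize z → G.dom.Realize z' →
        Mu G C x y z → Mu G C x y z' → z i = z' i) := by
    intro C _ p x y z z'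
    simp only [ψ, Formula.realize_imp, realize_dF, realize_mF, Formula.realize_equal,
      Term.realize_var]
    exact Iff.rfl
  have h1 := transfer j ψ Empty.elim (fun v => by
    have := (key M Empty.elim (v ∘ Sum.inl ∘ Sum.inl) (v ∘ Sum.inl ∘ Sum.inr)
      (v ∘ Sum.inr ∘ Sum.inl) (v ∘ Sum.inr ∘ Sum.inr)).mpr (fun hx hy hz hz' h1 h2 => by
        rw [mu_iff hx hy hz] at h1
        rw [mu_iff hx hy hz'] at h2
        rw [h1] at h2
        exact congrFun (congrArg Subtype.val h2) i)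
    have h3 : Sum.elim (Sum.elim (v ∘ Sum.inl ∘ Sum.inl) (v ∘ Sum.inl ∘ Sum.inr))
      (Sum.elim (v ∘ Sum.inr ∘ Sum.inl) (v ∘ Sum.inr ∘ Sum.inr)) = v := by
      funext x
      rcases x with (x | x) | (x | x) <;> rfl
    rwa [h3] at this) (Sum.elim (Sum.elim a b) (Sum.elim c c'))
  exact (key B _ a b c c').mp h1 ha hb hc hc' h h'

theorem dom_pt (g : G.Pts) : G.dom.Realize (j ∘ g.1) := (j.map_formula G.dom g.1).mpr g.2

theorem mu_pt (g h : G.Pts) : Mu G B (j ∘ g.1) (j ∘ h.1) (j ∘ (g * h : G.Pts).1) := by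
  have h1 : Mu G M g.1 h.1 (g * h : G.Pts).1 := (mu_iff g.2 h.2 (g * h : G.Pts).2).mpr rfl
  have h2 := (j.map_formula G.mulGraph (Sum.elim g.1 (Sum.elim h.1 (g * h : G.Pts).1))).mpr h1
  rwa [Sum.comp_elim, Sum.comp_elim] at h2

end GroupLaw

/-! ### Substituting a product into a formula -/

section MulF

variable (G : DefGroup L M)

/-- For a formula `φ(z)` over `N`, the formula `φ(x y)` over `N`, with `x` the outer and `y` the
inner free variable. -/
noncomputable def mulF {A : Type*} (φ : L.Formula (A ⊕ Fin G.arity)) :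
    L.Formula ((A ⊕ Fin G.arity) ⊕ Fin G.arity) :=
  Formula.iExs (Fin G.arity) (dF G Sum.inr ⊓
    (mF G (Sum.inl ∘ Sum.inr) (Sum.inl ∘ Sum.inl ∘ Sum.inr) Sum.inr ⊓
      φ.relabel (Sum.elim (Sum.inl ∘ Sum.inl ∘ Sum.inl) Sum.inr)))

variable {G}

theorem realize_mulF {A : Type*} {B : Type w} [L.Structure B] (φ : L.Formula (A ⊕ Fin G.arity))
    (f : A → B) (b a : Fin G.arity → B) :
    (mulF G φ).Realize (Sum.elim (Sum.elim f b) a) ↔
      ∃ c, G.dom.Realize c ∧ Mu G B a b c ∧ φ.Realize (Sum.elim f c) := by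
  simp only [mulF, Formula.realize_iExs, Formula.realize_inf, realize_dF, realize_mF,
    Formula.realize_relabel, Sum.comp_elim]
  exact Iff.rfl

theorem realize_mulF_of_mu {A : Type*} {B : Type w} [L.Structure B] (j : M ↪ₑ[L] B)
    (φ : L.Formula (A ⊕ Fin G.arity)) (f : A → B) {a b c : Fin G.arity → B}
    (ha : G.dom.Realize a) (hb : G.dom.Realize b) (hc : G.dom.Realize c) (h : Mu G B a b c) :
    (mulF G φ).Realize (Sum.elim (Sum.elim f b) a) ↔ φ.Realize (Sum.elim f c) := by
  rw [realize_mulF]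
  constructor
  · rintro ⟨c', hc', h', hφ⟩
    rwa [mu_unique j ha hb hc hc' h h']
  · intro hφ
    exact ⟨c, hc, h, hφ⟩

/-- For a tuple `m` from `M` and a formula `φ(z)` over `N`: the formula `φ(m y)` over `N`. -/
noncomputable def actF (e : M ↪ₑ[L] N) (m : Fin G.arity → M) (φ : L.Formula (N ⊕ Fin G.arity)) :
    L.Formula (N ⊕ Fin G.arity) :=
  (mulF G φ).relabel (Sum.elim id (Sum.inl ∘ e ∘ m))

theorem realize_actF {B : Type w} [L.Structure B] (e : M ↪ₑ[L] N) (m : Fin G.arity → M)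
    (φ : L.Formula (N ⊕ Fin G.arity)) (f : N → B) (b : Fin G.arity → B) :
    (actF e m φ).Realize (Sum.elim f b) ↔
      (mulF G φ).Realize (Sum.elim (Sum.elim f b) (f ∘ e ∘ m)) := by
  rw [actF, Formula.realize_relabel, Sum.comp_elim]
  exact Iff.rfl

/-- `φ(g h)` for `g, h ∈ G(M)`. -/
theorem realize_actF_pt (e : M ↪ₑ[L] N) (g h : G.Pts) (φ : L.Formula (N ⊕ Fin G.arity)) :
    (actF e g.1 φ).Realize (Sum.elim id (e ∘ h.1)) ↔
      φ.Realize (Sum.elim id (e ∘ (g * h : G.Pts).1)) := by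
  rw [realize_actF]
  exact realize_mulF_of_mu e φ id (dom_pt e g) (dom_pt e h) (dom_pt e _) (mu_pt e g h)

end MulF

/-! ### Basic facts on `S_G^{fs}(N, M)` -/

section Types

variable {e : M ↪ₑ[L] N} {G : DefGroup L M} (p : FSType e G)

theorem FSType.exists_pt (F : Finset (L.Formula (N ⊕ Fin G.arity)))
    (hF : (F : Set (L.Formula (N ⊕ Fin G.arity))) ⊆ p.formulas) :
    ∃ g : G.Pts, ∀ φ ∈ F, φ.Realize (Sum.elim id (e ∘ g.1)) := by
  classical
  obtain ⟨m, hm⟩ := p.finSat (insert (G.dom.relabel Sum.inr) F) (by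
    intro φ hφ
    rw [Finset.coe_insert] at hφ
    rcases hφ with rfl | hφ
    · exact p.dom_mem
    · exact hF hφ)
  have h1 := hm _ (Finset.mem_insert_self _ _)
  rw [Formula.realize_relabel, Sum.elim_comp_inr, e.map_formula] at h1
  exact ⟨⟨m, h1⟩, fun φ hφ => hm φ (Finset.mem_insert_of_mem hφ)⟩

/-- A formula which holds at all points of `G(M)` belongs to the type. -/
theorem FSType.mem_of_forall {φ : L.Formula (N ⊕ Fin G.arity)}
    (h : ∀ g : G.Pts, φ.Realize (Sum.elim id (e ∘ g.1))) : φ ∈ p.formulas := by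
  classical
  rcases p.complete φ with h1 | h1
  · exact h1
  · exfalso
    obtain ⟨g, hg⟩ := p.exists_pt {∼φ} (by simpa using h1)
    have h2 := hg _ (Finset.mem_singleton_self _)
    rw [Formula.realize_not] at h2
    exact h2 (h g)

theorem FSType.not_mem_iff {φ : L.Formula (N ⊕ Fin G.arity)} :
    ∼φ ∈ p.formulas ↔ φ ∉ p.formulas := by
  classical
  constructor
  · intro h1 h2
    obtain ⟨g, hg⟩ := p.exists_pt {φ, ∼φ} (by
      intro ψ hψ
      simp only [Finset.coe_insert, Finset.coe_singleton, mem_insert_iff,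
        mem_singleton_iff] at hψ
      rcases hψ with rfl | rfl <;> assumption)
    have h3 := hg φ (by simp)
    have h4 := hg (∼φ) (by simp)
    rw [Formula.realize_not] at h4
    exact h4 h3
  · intro h
    rcases p.complete φ with h1 | h1
    · exact absurd h1 h
    · exact h1

/-- Formulas which agree on `G(M)` agree in the type. -/
theorem FSType.mem_congr {φ ψ : L.Formula (N ⊕ Fin G.arity)}
    (h : ∀ g : G.Pts, φ.Realize (Sum.elim id (e ∘ g.1)) ↔ ψ.Realize (Sum.elim id (e ∘ g.1))) :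
    φ ∈ p.formulas ↔ ψ ∈ p.formulas := by
  classical
  have key : ∀ φ ψ : L.Formula (N ⊕ Fin G.arity),
      (∀ g : G.Pts, φ.Realize (Sum.elim id (e ∘ g.1)) ↔ ψ.Realize (Sum.elim id (e ∘ g.1))) →
      φ ∈ p.formulas → ψ ∈ p.formulas := by
    intro φ ψ h hφ
    by_contra hψ
    rw [← p.not_mem_iff] at hψ
    obtain ⟨g, hg⟩ := p.exists_pt {φ, ∼ψ} (by
      intro χ hχ
      simp only [Finset.coe_insert, Finset.coe_singleton, mem_insert_iff,
        mem_singleton_iff] at hχ
      rcases hχ with rfl | rfl <;> assumption)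
    have h3 := hg φ (by simp)
    have h4 := hg (∼ψ) (by simp)
    rw [Formula.realize_not] at h4
    exact h4 ((h g).mp h3)
  exact ⟨key φ ψ h, key ψ φ fun g => (h g).symm⟩

theorem FSType.inf_mem_iff {φ ψ : L.Formula (N ⊕ Fin G.arity)} :
    φ ⊓ ψ ∈ p.formulas ↔ φ ∈ p.formulas ∧ ψ ∈ p.formulas := by
  classical
  constructor
  · intro h
    constructor
    · by_contra hφ
      rw [← p.not_mem_iff] at hφ
      obtain ⟨g, hg⟩ := p.exists_pt {φ ⊓ ψ, ∼φ} (by
        intro χ hχ
        simp only [Finset.coe_insert, Finset.coe_singleton, mem_insert_iff,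
          mem_singleton_iff] at hχ
        rcases hχ with rfl | rfl <;> assumption)
      have h3 := hg (φ ⊓ ψ) (by simp)
      have h4 := hg (∼φ) (by simp)
      rw [Formula.realize_not] at h4
      rw [Formula.realize_inf] at h3
      exact h4 h3.1
    · by_contra hφ
      rw [← p.not_mem_iff] at hφ
      obtain ⟨g, hg⟩ := p.exists_pt {φ ⊓ ψ, ∼ψ} (by
        intro χ hχ
        simp only [Finset.coe_insert, Finset.coe_singleton, mem_insert_iff,
          mem_singleton_iff] at hχ
        rcases hχ with rfl | rfl <;> assumption)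
      have h3 := hg (φ ⊓ ψ) (by simp)
      have h4 := hg (∼ψ) (by simp)
      rw [Formula.realize_not] at h4
      rw [Formula.realize_inf] at h3
      exact h4 h3.2
  · rintro ⟨h1, h2⟩
    by_contra hcon
    rw [← p.not_mem_iff] at hcon
    obtain ⟨g, hg⟩ := p.exists_pt {φ, ψ, ∼(φ ⊓ ψ)} (by
      intro χ hχ
      simp only [Finset.coe_insert, Finset.coe_singleton, mem_insert_iff,
        mem_singleton_iff] at hχ
      rcases hχ with rfl | rfl | rfl <;> assumption)
    have h3 := hg φ (by simp)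
    have h4 := hg ψ (by simp)
    have h5 := hg (∼(φ ⊓ ψ)) (by simp)
    rw [Formula.realize_not, Formula.realize_inf] at h5
    exact h5 ⟨h3, h4⟩

end Types

/-! ### Finitely many parameters -/

/-- A formula uses only finitely many of its parameter variables. -/
theorem exists_finitary {β : Type*} {k : ℕ} (θ : L.Formula (β ⊕ Fin k)) :
    ∃ (n : ℕ) (f : Fin n → β) (θ₀ : L.Formula (Fin k ⊕ Fin n)),
      ∀ (B : Type w) [L.Structure B] (w : β → B) (a : Fin k → B),
        θ₀.Realize (Sum.elim a (w ∘ f)) ↔ θ.Realize (Sum.elim w a) := by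
  classical
  let s := BoundedFormula.freeVarFinset θ
  let X : Type _ := {b : β // Sum.inl b ∈ s}
  have hX : Finite X := by
    refine Finite.of_injective (fun b : X => (⟨Sum.inl b.1, b.2⟩ : s)) ?_
    intro b b' h
    have h1 := congrArg Subtype.val h
    exact Subtype.ext (Sum.inl_injective h1)
  obtain ⟨n, ⟨ε⟩⟩ := Finite.exists_equiv_fin X
  let g : s → Fin k ⊕ Fin n := fun a => match a with
    | ⟨Sum.inl b, hb⟩ => Sum.inr (ε ⟨b, hb⟩)
    | ⟨Sum.inr i, _⟩ => Sum.inl i
  refine ⟨n, fun i => (ε.symm i).1, BoundedFormula.restrictFreeVar θ g, ?_⟩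
  intro B _ w a
  refine BoundedFormula.realize_restrictFreeVar _ ?_
  rintro ⟨b | i, hb⟩
  · show w (ε.symm (ε ⟨b, hb⟩)).1 = w b
    rw [Equiv.symm_apply_apply]
  · rfl

/-! ### Ultrapowers -/

section Ultra

/-- The diagonal embedding of a structure in an ultrapower. -/
def diag {X : Type*} (𝒰 : Ultrafilter X) (A : Type w) [L.Structure A] [Nonempty A] :
    A ↪ₑ[L] ((𝒰 : Filter X).Product (fun _ : X => A)) where
  toFun a := ((fun _ => a : X → A) : (𝒰 : Filter X).Product (fun _ : X => A))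
  map_formula' := by
    intro n φ x
    have h := Ultraproduct.realize_formula_cast (u := 𝒰) (M := fun _ : X => A) φ
      (fun i _ => x i)
    refine Iff.trans h ?_
    rw [Filter.eventually_const]

theorem realize_ultra {X : Type*} (𝒰 : Ultrafilter X) (A : Type w) [L.Structure A] [Nonempty A]
    {β : Type*} (φ : L.Formula β) (x : X → β → A) :
    φ.Realize (fun i => ((fun a => x a i : X → A) : (𝒰 : Filter X).Product (fun _ : X => A))) ↔
      ∀ᶠ a in (𝒰 : Filter X), φ.Realize (x a) :=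
  Ultraproduct.realize_formula_cast (u := 𝒰) (M := fun _ : X => A) φ (fun i a => x a i)

/-- The ultrafilter on `M`-tuples attached to a type. -/
theorem FSType.exists_ultrafilter {e : M ↪ₑ[L] N} {G : DefGroup L M} (p : FSType e G) :
    ∃ 𝒰 : Ultrafilter (Fin G.arity → M), ∀ φ : L.Formula (N ⊕ Fin G.arity),
      φ ∈ p.formulas ↔ ∀ᶠ m in (𝒰 : Filter (Fin G.arity → M)),
        φ.Realize (Sum.elim id (e ∘ m)) := by
  classical
  let D : L.Formula (N ⊕ Fin G.arity) → Set (Fin G.arity → M) :=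
    fun φ => {m | φ.Realize (Sum.elim id (e ∘ m))}
  have hne : (Filter.generate (D '' p.formulas)).NeBot := by
    rw [Filter.generate_neBot_iff]
    intro t ht htf
    obtain ⟨F, hF, rfl⟩ : ∃ F : Finset (L.Formula (N ⊕ Fin G.arity)),
        (F : Set (L.Formula (N ⊕ Fin G.arity))) ⊆ p.formulas ∧ D '' F = t := by
      obtain ⟨F, hF, hFt⟩ := (subset_image_iff).mp ht
      have := Set.exists_subset_bijOn F D
      obtain ⟨F', hF', hbij⟩ := this
      have hfin : F'.Finite := by
        refine Set.Finite.of_finite_image (f := D) ?_ hbij.injOn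
        rw [hbij.image_eq, hFt]
        exact htf
      refine ⟨hfin.toFinset, ?_, ?_⟩
      · rw [hfin.coe_toFinset]
        exact hF'.trans hF
      · rw [hfin.coe_toFinset, hbij.image_eq, hFt]
    obtain ⟨m, hm⟩ := p.finSat F hF
    refine ⟨m, ?_⟩
    rintro _ ⟨φ, hφ, rfl⟩
    exact hm φ hφ
  refine ⟨Ultrafilter.of (Filter.generate (D '' p.formulas)), fun φ => ?_⟩
  have h1 : ∀ ψ ∈ p.formulas, ∀ᶠ m in (Ultrafilter.of (Filter.generate (D '' p.formulas)) :
      Filter (Fin G.arity → M)), ψ.Realize (Sum.elim id (e ∘ m)) := by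
    intro ψ hψ
    exact Ultrafilter.of_le _ (Filter.mem_generate_of_mem ⟨ψ, hψ, rfl⟩)
  refine ⟨h1 φ, fun h => ?_⟩
  by_contra hφ
  rw [← p.not_mem_iff] at hφ
  have h2 := h1 _ hφ
  obtain ⟨m, h3, h4⟩ := (h.and h2).exists
  rw [Formula.realize_not] at h4
  exact h4 h3

end Ultra

end Pool.Agent.Lib_helper84.NIP
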