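import Mathlib

/-!
# The `τ`-topology: general definitions

`S` is a set with a topology and a multiplication, `Γ` is a type whose elements are identified with
elements of `S` through a map `real : Γ → S` (later: `Γ = G(M)`, `S = S_G^{fs}(N, M)` and `real g`
is the realised type `tp(g/N)`).
-/

namespace Pool.Agent.Lib_helper84.Tau

open Topology Filter Set

universe u v

variable {S : Type u} [Mul S]

/-- Left ideals: nonempty `I ⊆ S` with `S * I ⊆ I`. -/
def IsLeftIdeal (I : Set S) : Prop :=
  I.Nonempty ∧ ∀ s : S, ∀ x ∈ I, s * x ∈ I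

/-- Minimal left ideals: left ideals which contain no other left ideal. -/
def IsMinimalLeftIdeal (I : Set S) : Prop :=
  IsLeftIdeal I ∧ ∀ J : Set S, IsLeftIdeal J → J ⊆ I → J = I

/-- The set `u * I = {u * x : x ∈ I}`; for a minimal left ideal `I` and an idempotent `u ∈ I` this
is the ideal group. -/
def idealGroup (I : Set S) (u : S) : Set S := (fun x => u * x) '' I

variable [TopologicalSpace S] {Γ : Type v} (real : Γ → S)

/-- `p ∘ A`: the set of all limits of convergent nets `(g_i * a_i)_i` with `g_i ∈ Γ`, `a_i ∈ A`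
and `g_i → p`. -/
def circ (p : S) (A : Set S) : Set S :=
  {x | ∃ (ι : Type u) (_ : Preorder ι) (_ : IsDirectedOrder ι) (_ : Nonempty ι)
      (g : ι → Γ) (a : ι → S), (∀ i, a i ∈ A) ∧
      Tendsto (fun i => real (g i)) atTop (𝓝 p) ∧
      Tendsto (fun i => real (g i) * a i) atTop (𝓝 x)}

/-- `cl_τ(A) = u I ∩ (u ∘ A)`, for `A ⊆ u I`. -/
def clTau (I : Set S) (u : S) (A : Set S) : Set S := idealGroup I u ∩ circ real u A

end Pool.Agent.Lib_helper84.Tau
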