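import Pool.Agent.Lib_helper84.NIPExist
import Pool.Agent.Lib_helper84.TauDefs

/-!
# The semigroup `S_G^{fs}(N, M)`: definition of the multiplication
-/

namespace Pool.Agent.Lib_helper84.NIP

open FirstOrder FirstOrder.Language Cardinal Set

universe u v w

variable {L : FirstOrder.Language.{u, v}} {M N : Type w} [L.Structure M] [L.Structure N]

/-- The space `S_G^{fs}(N, M)`, for an `|M|^+`-saturated elementary extension `e : M → N`. -/
def SGfs (e : M ↪ₑ[L] N) (G : DefGroup L M) (_hsat : IsSaturated L (Order.succ #M) N) :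
    Type (max u v w) := FSType e G

variable {e : M ↪ₑ[L] N} {G : DefGroup L M} {hsat : IsSaturated L (Order.succ #M) N}

instance SGfs.topologicalSpace : TopologicalSpace (SGfs e G hsat) :=
  inferInstanceAs (TopologicalSpace (FSType e G))

/-- The multiplication of `S_G^{fs}(N, M)`: `p * q` is the unique `r` with `IsProd p q r`. -/
noncomputable instance SGfs.mul [Nonempty M] : Mul (SGfs e G hsat) :=
  ⟨fun p q => (existsUnique_isProd hsat p q).choose⟩

/-- The realised type `tp(g/N)` of `g ∈ G(M)`. -/
def SGfs.realized (g : G.Pts) : SGfs e G hsat where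
  formulas := {φ | φ.Realize (Sum.elim id (e ∘ g.1))}
  complete φ := by
    rcases Classical.em (φ.Realize (Sum.elim id (e ∘ g.1))) with h | h
    · exact Or.inl h
    · exact Or.inr h
  finSat F hF := ⟨g.1, fun φ hφ => hF hφ⟩
  dom_mem := by
    show (G.dom.relabel Sum.inr).Realize (Sum.elim id (e ∘ g.1))
    rw [Formula.realize_relabel, Sum.elim_comp_inr]
    exact dom_pt e g

end Pool.Agent.Lib_helper84.NIP
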