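import Pool.Agent.Lib_helper84.TauDefs

/-!
# The `τ`-topology: general theory
-/

set_option linter.unusedSectionVars false
set_option warn.classDefReducibility false

namespace Pool.Agent.Lib_helper84.Tau

open Topology Filter Set

universe u v

section Circ

variable {S : Type u} [Mul S] [TopologicalSpace S] {Γ : Type v} (real : Γ → S)

/-- Neighbourhood description of `p ∘ A`. -/
theorem mem_circ_iff {p x : S} {A : Set S} :
    x ∈ circ real p A ↔
      ∀ U ∈ 𝓝 x, ∀ W ∈ 𝓝 p, ∃ g : Γ, real g ∈ W ∧ ∃ a ∈ A, real g * a ∈ U := by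
  constructor
  · rintro ⟨ι, _, _, _, g, a, ha, hg, hga⟩ U hU W hW
    obtain ⟨i, h1, h2⟩ := ((hg.eventually hW).and (hga.eventually hU)).exists
    exact ⟨g i, h1, a i, ha i, h2⟩
  · intro h
    -- index set: neighbourhoods of `(x, p)`
    have key : ∀ i : {U : Set (S × S) // U ∈ 𝓝 (x, p)}ᵒᵈ, ∃ g : Γ, ∃ a : S, a ∈ A ∧
        (real g * a, real g) ∈ (OrderDual.ofDual i).1 := by
      intro i
      obtain ⟨U, hU, W, hW, hUW⟩ := mem_nhds_prod_iff.mp (OrderDual.ofDual i).2
      obtain ⟨g, hg, a, ha, hga⟩ := h U hU W hW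
      exact ⟨g, a, ha, hUW ⟨hga, hg⟩⟩
    choose g a ha hga using key
    have hdir : IsDirectedOrder {U : Set (S × S) // U ∈ 𝓝 (x, p)}ᵒᵈ := by
      constructor
      intro i j
      exact ⟨OrderDual.toDual ⟨(OrderDual.ofDual i).1 ∩ (OrderDual.ofDual j).1,
        inter_mem (OrderDual.ofDual i).2 (OrderDual.ofDual j).2⟩,
        inter_subset_left, inter_subset_right⟩
    have hne : Nonempty {U : Set (S × S) // U ∈ 𝓝 (x, p)}ᵒᵈ :=
      ⟨OrderDual.toDual ⟨univ, univ_mem⟩⟩
    have htend : Tendsto (fun i => (real (g i) * a i, real (g i))) atTop (𝓝 (x, p)) := by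
      intro V hV
      rw [mem_map]
      refine mem_of_superset (Ici_mem_atTop (OrderDual.toDual ⟨V, hV⟩)) ?_
      intro i hi
      exact hi (hga i)
    exact ⟨_, inferInstance, hdir, hne, g, a, ha, (continuous_snd.tendsto _).comp htend,
      (continuous_fst.tendsto _).comp htend⟩

theorem circ_mono {p : S} {A B : Set S} (h : A ⊆ B) : circ real p A ⊆ circ real p B := by
  intro x hx
  rw [mem_circ_iff] at hx ⊢
  intro U hU W hW
  obtain ⟨g, hg, a, ha, hga⟩ := hx U hU W hW
  exact ⟨g, hg, a, h ha, hga⟩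

theorem circ_union {p : S} {A B : Set S} :
    circ real p (A ∪ B) ⊆ circ real p A ∪ circ real p B := by
  intro x hx
  by_contra hcon
  rw [mem_union, not_or, mem_circ_iff, mem_circ_iff] at hcon
  obtain ⟨h1, h2⟩ := hcon
  push Not at h1 h2
  obtain ⟨U1, hU1, W1, hW1, h1⟩ := h1
  obtain ⟨U2, hU2, W2, hW2, h2⟩ := h2
  rw [mem_circ_iff] at hx
  obtain ⟨g, hg, a, ha, hga⟩ := hx _ (inter_mem hU1 hU2) _ (inter_mem hW1 hW2)
  rcases ha with ha | ha
  · exact h1 g hg.1 a ha hga.1
  · exact h2 g hg.2 a ha hga.2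

theorem circ_empty {p : S} : circ real p ∅ = ∅ := by
  ext x
  rw [mem_circ_iff]
  simp only [mem_empty_iff_false, false_and, exists_false, and_false, iff_false, not_forall]
  exact ⟨univ, univ_mem, univ, univ_mem, fun h => h⟩

end Circ

/-- The hypotheses on `(S, Γ)`: a compact Hausdorff left-continuous semigroup in which the group
`Γ` maps onto a dense set of elements acting continuously from the left. -/
structure Ellis {S : Type u} [Semigroup S] [TopologicalSpace S] {Γ : Type v} [Group Γ]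
    (real : Γ → S) : Prop where
  cont : ∀ q : S, Continuous (fun p => p * q)
  real_mul : ∀ g h : Γ, real (g * h) = real g * real h
  real_one_mul : ∀ s : S, real 1 * s = s
  cont_real : ∀ g : Γ, Continuous (fun s => real g * s)
  dense : DenseRange real

section Basic

variable {S : Type u} [Semigroup S] [TopologicalSpace S] {Γ : Type v} [Group Γ] {real : Γ → S}

theorem Ellis.circ_circ (E : Ellis real) (p q : S) (A : Set S) :
    circ real p (circ real q A) ⊆ circ real (p * q) A := by
  intro x hx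
  rw [mem_circ_iff] at hx ⊢
  intro U hU W hW
  obtain ⟨U', hU'U, hU'o, hxU'⟩ := mem_nhds_iff.mp hU
  obtain ⟨W', hW'W, hW'o, hpW'⟩ := mem_nhds_iff.mp hW
  have h1 : (fun p => p * q) ⁻¹' W' ∈ 𝓝 p := (E.cont q).continuousAt.preimage_mem_nhds
    (hW'o.mem_nhds hpW')
  obtain ⟨g, hg, y, hy, hgy⟩ := hx U' (hU'o.mem_nhds hxU') _ h1
  rw [mem_circ_iff] at hy
  have h2 : (fun s => real g * s) ⁻¹' U' ∈ 𝓝 y := (E.cont_real g).continuousAt.preimage_mem_nhds
    (hU'o.mem_nhds hgy)
  have h3 : (fun s => real g * s) ⁻¹' W' ∈ 𝓝 q := (E.cont_real g).continuousAt.preimage_mem_nhds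
    (hW'o.mem_nhds hg)
  obtain ⟨h, hh, a, ha, hha⟩ := hy _ h2 _ h3
  refine ⟨g * h, hW'W ?_, a, ha, hU'U ?_⟩
  · rw [E.real_mul]; exact hh
  · rw [E.real_mul, mul_assoc]; exact hha

theorem Ellis.mul_mem_circ (E : Ellis real) (p : S) {A : Set S} {a : S} (ha : a ∈ A) :
    p * a ∈ circ real p A := by
  rw [mem_circ_iff]
  intro U hU W hW
  have h1 : (fun p => p * a) ⁻¹' U ∈ 𝓝 p := (E.cont a).continuousAt.preimage_mem_nhds hU
  obtain ⟨g, hg⟩ := E.dense.exists_mem_open isOpen_interior
    ⟨p, mem_interior_iff_mem_nhds.mpr (inter_mem h1 hW)⟩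
  have := interior_subset hg
  exact ⟨g, this.2, a, ha, this.1⟩

theorem Ellis.circ_mul_right (E : Ellis real) (p : S) {A : Set S} {x : S} (q : S)
    (hx : x ∈ circ real p A) : x * q ∈ circ real p ((fun a => a * q) '' A) := by
  rw [mem_circ_iff] at hx ⊢
  intro U hU W hW
  have h1 : (fun p => p * q) ⁻¹' U ∈ 𝓝 x := (E.cont q).continuousAt.preimage_mem_nhds hU
  obtain ⟨g, hg, a, ha, hga⟩ := hx _ h1 _ hW
  refine ⟨g, hg, a * q, ⟨a, ha, rfl⟩, ?_⟩
  rw [← mul_assoc]
  exact hga

end Basic

/-! ### Minimal left ideals and the ideal group -/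

section Ideal

variable {S : Type u} [Semigroup S] {I : Set S} {u : S}

theorem IsMinimalLeftIdeal.mul_mem (hI : IsMinimalLeftIdeal I) (s : S) {x : S} (hx : x ∈ I) :
    s * x ∈ I := hI.1.2 s x hx

/-- `I x = I` for `x ∈ I`. -/
theorem IsMinimalLeftIdeal.exists_mul_eq (hI : IsMinimalLeftIdeal I) {x y : S} (hx : x ∈ I)
    (hy : y ∈ I) : ∃ s ∈ I, s * x = y := by
  have h1 : IsLeftIdeal ((fun s => s * x) '' I) := by
    refine ⟨hI.1.1.image _, ?_⟩
    rintro s _ ⟨t, ht, rfl⟩
    exact ⟨s * t, hI.mul_mem s ht, mul_assoc s t x⟩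
  have h2 : (fun s => s * x) '' I ⊆ I := by
    rintro _ ⟨s, _, rfl⟩
    exact hI.mul_mem s hx
  have h3 := hI.2 _ h1 h2
  rw [← h3] at hy
  exact hy

theorem IsMinimalLeftIdeal.mul_idem (hI : IsMinimalLeftIdeal I) (hu : u ∈ I) (huu : u * u = u)
    {x : S} (hx : x ∈ I) : x * u = x := by
  obtain ⟨s, _, rfl⟩ := hI.exists_mul_eq hu hx
  rw [mul_assoc, huu]

theorem mem_idealGroup_iff (hI : IsMinimalLeftIdeal I) (huu : u * u = u) {x : S} :
    x ∈ idealGroup I u ↔ x ∈ I ∧ u * x = x := by
  constructor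
  · rintro ⟨y, hy, rfl⟩
    exact ⟨hI.mul_mem u hy, by show u * (u * y) = u * y; rw [← mul_assoc, huu]⟩
  · rintro ⟨hx, h⟩
    exact ⟨x, hx, h⟩

theorem idealGroup_exists_inv (hI : IsMinimalLeftIdeal I) (hu : u ∈ I) (huu : u * u = u) {x : S}
    (hx : x ∈ idealGroup I u) : ∃ y ∈ idealGroup I u, y * x = u ∧ x * y = u := by
  have left : ∀ z ∈ idealGroup I u, ∃ y ∈ idealGroup I u, y * z = u := by
    intro z hz
    rw [mem_idealGroup_iff hI huu] at hz
    obtain ⟨s, hs, hsz⟩ := hI.exists_mul_eq hz.1 hu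
    refine ⟨u * s, ⟨s, hs, rfl⟩, ?_⟩
    rw [mul_assoc, hsz, huu]
  obtain ⟨y, hy, hyx⟩ := left x hx
  obtain ⟨z, hz, hzy⟩ := left y hy
  refine ⟨y, hy, hyx, ?_⟩
  have hx' := (mem_idealGroup_iff hI huu).mp hx
  have hz' := (mem_idealGroup_iff hI huu).mp hz
  have hy' := (mem_idealGroup_iff hI huu).mp hy
  -- `z = z * u = z * (y * x) = u * x = x`
  have : z = x := by
    calc z = z * u := (hI.mul_idem hu huu hz'.1).symm
      _ = z * (y * x) := by rw [hyx]
      _ = (z * y) * x := (mul_assoc _ _ _).symm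
      _ = u * x := by rw [hzy]
      _ = x := hx'.2
  rw [← this]
  exact hzy

theorem idealGroup_mul_mem (hI : IsMinimalLeftIdeal I) (huu : u * u = u) {x y : S}
    (hx : x ∈ idealGroup I u) (hy : y ∈ I) : x * y ∈ idealGroup I u := by
  rw [mem_idealGroup_iff hI huu] at hx ⊢
  refine ⟨hI.mul_mem x hy, ?_⟩
  rw [← mul_assoc, hx.2]

theorem idem_mem_idealGroup (hI : IsMinimalLeftIdeal I) (hu : u ∈ I) (huu : u * u = u) :
    u ∈ idealGroup I u := (mem_idealGroup_iff hI huu).mpr ⟨hu, huu⟩

end Ideal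

/-! ### The `τ`-topology -/

section TauTop

variable {S : Type u} [Semigroup S] [TopologicalSpace S] {Γ : Type v} [Group Γ] {real : Γ → S}
  {I : Set S} {u : S}

theorem clTau_mono {A B : Set S} (h : A ⊆ B) : clTau real I u A ⊆ clTau real I u B :=
  inter_subset_inter_right _ (circ_mono real h)

theorem clTau_subset (A : Set S) : clTau real I u A ⊆ idealGroup I u := inter_subset_left

theorem Ellis.subset_clTau (E : Ellis real) (hI : IsMinimalLeftIdeal I) (huu : u * u = u)
    {A : Set S} (hA : A ⊆ idealGroup I u) : A ⊆ clTau real I u A := by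
  intro a ha
  refine ⟨hA ha, ?_⟩
  have h := E.mul_mem_circ u ha
  rwa [((mem_idealGroup_iff hI huu).mp (hA ha)).2] at h

theorem Ellis.clTau_clTau (E : Ellis real) (huu : u * u = u) (A : Set S) :
    clTau real I u (clTau real I u A) ⊆ clTau real I u A := by
  rintro x ⟨hx, hx'⟩
  refine ⟨hx, ?_⟩
  have h1 := circ_mono real (B := circ real u A) inter_subset_right hx'
  have h2 := E.circ_circ u u A h1
  rwa [huu] at h2

theorem clTau_union (A B : Set S) :
    clTau real I u (A ∪ B) ⊆ clTau real I u A ∪ clTau real I u B := by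
  rintro x ⟨hx, hx'⟩
  rcases circ_union real hx' with h | h
  · exact Or.inl ⟨hx, h⟩
  · exact Or.inr ⟨hx, h⟩

/-- The `τ`-closure of a subset of (the subtype) `u I`. -/
def clSub (real : Γ → S) (I : Set S) (u : S) (A : Set (idealGroup I u)) : Set (idealGroup I u) :=
  {x | (x : S) ∈ clTau real I u (Subtype.val '' A)}

/-- The `τ`-topology on `u I`: the closed sets are the sets `A ⊆ u I` with `cl_τ(A) = A`. -/
def Ellis.tau (E : Ellis real) (hI : IsMinimalLeftIdeal I) (huu : u * u = u) :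
    TopologicalSpace (idealGroup I u) :=
  TopologicalSpace.ofClosed {A | clSub real I u A = A}
    (by
      ext x
      simp only [clSub, clTau, image_empty, circ_empty, inter_empty, mem_empty_iff_false,
        ofPred_false])
    (by
      intro 𝒜 h𝒜
      refine Subset.antisymm ?_ ?_
      · intro x hx
        rw [mem_sInter]
        intro A hA
        have h1 : clSub real I u A = A := h𝒜 hA
        rw [← h1]
        exact clTau_mono (image_mono (sInter_subset_of_mem hA)) hx
      · intro x hx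
        exact E.subset_clTau hI huu (by rintro _ ⟨y, _, rfl⟩; exact y.2) ⟨x, hx, rfl⟩)
    (by
      intro A hA B hB
      refine Subset.antisymm ?_ ?_
      · intro x hx
        have hx' : (x : S) ∈ clTau real I u (Subtype.val '' A ∪ Subtype.val '' B) := by
          rw [← image_union]; exact hx
        rcases clTau_union _ _ hx' with h | h
        · left
          have h1 : clSub real I u A = A := hA
          rw [← h1]
          exact h
        · right
          have h1 : clSub real I u B = B := hB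
          rw [← h1]
          exact h
      · intro x hx
        exact E.subset_clTau hI huu (by rintro _ ⟨y, _, rfl⟩; exact y.2) ⟨x, hx, rfl⟩)

end TauTop

end Pool.Agent.Lib_helper84.Tau
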